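import Pool.Agent.H41.FRM.Cmp
import Pool.Agent.H12.LSH.Lin
import Pool.Agent.H37.AF.Def

/-!
# Affine frames: heights along straight lines, sizes, slopes

`lin_eval`: an affine polynomial is an affine function along a straight line. `zs_bd`: sizes in a
frame near to the labels. `slp_fr`: a frame near to the labels does not see small changes of the
positions which the labels do not see.
-/

set_option autoImplicit false

namespace Pool.AF12

open Finset Real MvPolynomial
open Pool.STAT Pool.MIC.Frm Pool.FRM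
open Pool.P4 (pp)

/-! ### Affine functions -/

/-- Affine functions of the time. -/
def Lin1 (f : ℝ → ℝ) : Prop := ∃ a b : ℝ, ∀ t, f t = a + b * t

theorem Lin1.const (a : ℝ) : Lin1 fun _ => a := ⟨a, 0, fun t => by ring⟩

theorem Lin1.smul {f : ℝ → ℝ} (h : Lin1 f) (c : ℝ) : Lin1 fun t => c * f t := by
  obtain ⟨a, b, hf⟩ := h
  exact ⟨c * a, c * b, fun t => by
    beta_reduce
    rw [hf]
    ring⟩

theorem Lin1.sub {f g : ℝ → ℝ} (h : Lin1 f) (h' : Lin1 g) : Lin1 fun t => f t - g t := by
  obtain ⟨a, b, hf⟩ := h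
  obtain ⟨a', b', hg⟩ := h'
  exact ⟨a - a', b - b', fun t => by
    beta_reduce
    rw [hf, hg]
    ring⟩

theorem Lin1.sum {ι : Type} {s : Finset ι} {f : ι → ℝ → ℝ} (h : ∀ i ∈ s, Lin1 (f i)) :
    Lin1 fun t => ∑ i ∈ s, f i t := by
  classical
  induction s using Finset.induction_on with
  | empty =>
    refine ⟨0, 0, fun t => ?_⟩
    beta_reduce
    rw [Finset.sum_empty]
    ring
  | insert i s hi ih =>
    obtain ⟨a, b, hf⟩ := h i (Finset.mem_insert_self _ _)
    obtain ⟨a', b', hg⟩ := ih fun j hj => h j (Finset.mem_insert_of_mem hj)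
    refine ⟨a + a', b + b', fun t => ?_⟩
    beta_reduce at hg ⊢
    rw [Finset.sum_insert hi, hf, hg]
    ring

/-- Three values of an affine function. -/
theorem Lin1.three {f : ℝ → ℝ} (h : Lin1 f) (w x s : ℝ) :
    f x = f w + (x - w) * (f (0 + 1) - f 0) ∧ f (w + s) - f w = f s - f 0 := by
  obtain ⟨a, b, hf⟩ := h
  constructor
  · rw [hf, hf, hf, hf]
    ring
  · rw [hf, hf, hf, hf]
    ring

theorem lin_pp {D : NDat2} (hS : D.Strt) (x : D.Λ) (l : ℕ) : Lin1 fun t => pp D x t l := by
  unfold pp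
  by_cases h : l = 0
  · exact ⟨0, 1, fun t => by
      beta_reduce
      rw [if_pos h]
      ring⟩
  · refine ⟨(D.pa x l).coeff 0, (D.pa x l).coeff 1, fun t => ?_⟩
    beta_reduce
    rw [if_neg h]
    have h1 := Polynomial.eq_X_add_C_of_natDegree_le_one (hS x l)
    obtain ⟨p, hp⟩ : ∃ p, p = D.pa x l := ⟨_, rfl⟩
    rw [← hp] at h1 ⊢
    calc p.eval t = (Polynomial.C (p.coeff 1) * Polynomial.X + Polynomial.C (p.coeff 0)).eval t := by
          rw [← h1]
      _ = p.coeff 0 + p.coeff 1 * t := by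
          simp only [Polynomial.eval_add, Polynomial.eval_mul, Polynomial.eval_C, Polynomial.eval_X]
          ring

/-- **An affine polynomial along a straight line.** -/
theorem lin_eval {D : NDat2} (hS : D.Strt) (x : D.Λ) {F : PN} (hF : F.totalDegree ≤ 1) :
    Lin1 fun t => eval (pp D x t) F := by
  have e : (fun t => eval (pp D x t) F) = fun t =>
      ∑ k ∈ F.support, F.coeff k * ∏ i ∈ k.support, pp D x t i ^ k i := by
    funext t
    rw [eval_eq]
  rw [e]
  refine Lin1.sum fun k hk => ?_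
  refine Lin1.smul ?_ _
  have h1 : ∑ i ∈ k.support, k i ≤ 1 := (le_totalDegree hk).trans hF
  have h2 : k.support.card ≤ ∑ i ∈ k.support, k i := by
    rw [Finset.card_eq_sum_ones]
    refine Finset.sum_le_sum fun i hi => ?_
    exact Nat.one_le_iff_ne_zero.2 (Finsupp.mem_support_iff.1 hi)
  rcases Nat.eq_zero_or_pos k.support.card with h3 | h3
  · rw [Finset.card_eq_zero.1 h3]
    exact ⟨1, 0, fun t => by simp⟩
  · obtain ⟨i, hi⟩ := Finset.card_eq_one.1 (show k.support.card = 1 by omega)
    have h4 : k i = 1 := by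
      rw [hi, Finset.sum_singleton] at h1
      have h5 : k i ≠ 0 := Finsupp.mem_support_iff.1 (by rw [hi]; exact Finset.mem_singleton_self i)
      omega
    obtain ⟨a, b, hf⟩ := lin_pp hS x i
    refine ⟨a, b, fun t => ?_⟩
    beta_reduce
    rw [hi, Finset.prod_singleton, h4, pow_one]
    exact hf t

theorem lin_nat {D : NDat2} (hS : D.Strt) (x : D.Λ) (g : ℕ → ℕ) {P : ℕ → PN} {m : ℕ}
    (hF : (P m).totalDegree ≤ 1) : Lin1 fun t => nat g P (pp D x t) m := by
  unfold nat
  exact ((lin_pp hS x m).sub (lin_eval hS x hF)).smul _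

/-! ### Sizes -/

section size

variable {g : ℕ → ℕ} {Φ P : ℕ → PN} {K n : ℕ} {E W : ℝ}

/-- The height over the frame. -/
theorem zs_eq (hP : TriN P) (b : ℕ → ℝ) (m : ℕ) : zs P b m =
    nat g Φ b m / 2 ^ g m + eval (zs P b) (chr P (Φ m - P m)) := by
  rw [chr_eval hP, map_sub]
  unfold nat zs
  field_simp
  ring

/-- **Sizes in the frame.** -/
theorem zs_bd (hP : TriN P) (hN : Nb K n g (fun m => chr P (Φ m - P m)) E) (hE : 1 ≤ E)
    (hW : W = 4 * E) {b : ℕ → ℝ} {l : ℕ} (hl : l ≤ n + 1) (hb : ∀ m < l, |nat g Φ b m| ≤ E) :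
    ∀ m < l, |zs P b m| ≤ W ^ dd K m / 2 ^ g m := by
  have hW4 : 4 ≤ W := by linarith
  intro m
  induction m using Nat.strong_induction_on with
  | _ m ih =>
    intro hm
    rw [zs_eq (g := g) (Φ := Φ) hP b m]
    have h2 : |nat g Φ b m / 2 ^ g m| ≤ E / 2 ^ g m := by
      rw [abs_div, abs_of_pos (by positivity : (0 : ℝ) < 2 ^ g m)]
      exact div_le_div_of_nonneg_right (hb m hm) (by positivity)
    rcases Nat.eq_zero_or_pos m with h0 | h0
    · subst h0
      have h1 := hN.val (l := 0) (Nat.zero_le _) (le_refl (1 : ℝ)) (β := zs P b)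
        (fun k hk => absurd hk (Nat.not_lt_zero _))
      rw [one_pow, one_mul] at h1
      refine (abs_add_le _ _).trans ((add_le_add h2 h1).trans ?_)
      rw [← add_div]
      refine div_le_div_of_nonneg_right ?_ (by positivity)
      calc E + E ≤ W := by linarith
        _ = W ^ 1 := (pow_one _).symm
        _ ≤ W ^ dd K 0 := pow_le_pow_right₀ (by linarith) (dd_pos _ _)
    · obtain ⟨s, rfl⟩ : ∃ s, m = s + 1 := ⟨m - 1, by omega⟩
      have hB : (1 : ℝ) ≤ W ^ dd K s := one_le_pow₀ (by linarith)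
      have h1 := hN.val (l := s + 1) (by omega) hB (β := zs P b) fun k hk =>
        (ih k hk (by omega)).trans
          (div_le_div_of_nonneg_right (pow_le_pow_right₀ (by linarith) (dd_mono (by omega)))
            (by positivity))
      refine (abs_add_le _ _).trans ((add_le_add h2 h1).trans ?_)
      rw [← add_div]
      refine div_le_div_of_nonneg_right ?_ (by positivity)
      have h3 := sz1 (K := K) (l := s) hE hW
      linarith

/-- **Slopes.** -/
theorem slp_fr (hP : TriN P) (hN : Nb K n g (fun m => chr P (Φ m - P m)) E) (hΦ0 : (Φ 0).vars ⊆ range 0)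
    (hW : W = 4 * E) {x b : ℕ → ℝ} {l : ℕ} (hl : l ≤ n) {η ε S Q : ℝ} (hε : 0 ≤ ε) (hε1 : ε ≤ 1)
    (hS : 1 ≤ S) (hSE : S + 2 ≤ E) (hx : ∀ m < l, |nat g Φ x m| ≤ S) (b0 : b 0 = x 0)
    (hb : ∀ m, 1 ≤ m → m < l → |b m - x m| ≤ η) (hη : ∀ m, 1 ≤ m → m < l → η * 2 ^ g m ≤ ε)
    (hΦ : ∀ m, 1 ≤ m → m ≤ l → |eval b (Φ m) - eval x (Φ m)| ≤ ε / 2 ^ g m)
    (hQ : Q = 2 * (K * (W ^ dd K n) ^ K * E) + 2) :
    ∀ m, 1 ≤ m → m ≤ l → |eval b (P m) - eval x (P m)| ≤ Q ^ (m + 1) * ε / 2 ^ g m := by
  have hE : 1 ≤ E := by linarith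
  have hE0 : 0 ≤ E := by linarith
  have hW4 : 4 ≤ W := by linarith
  have hQ2 : 2 ≤ Q := by
    rw [hQ]
    have : 0 ≤ (K : ℝ) * (W ^ dd K n) ^ K * E := by positivity
    linarith
  -- the heights of `b`
  have hbn : ∀ m < l, |nat g Φ b m| ≤ E := by
    intro m hm
    rcases Nat.eq_zero_or_pos m with h0 | h0
    · subst h0
      have e1 : nat g Φ b 0 = nat g Φ x 0 := by
        unfold nat
        rw [b0, Pool.SYS35.eval_congr hΦ0 (b := b) (b' := x) fun i hi =>
          absurd hi (Nat.not_lt_zero _)]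
      rw [e1]
      linarith [hx 0 hm]
    · have e1 : nat g Φ b m = nat g Φ x m + (b m - x m) * 2 ^ g m -
          (eval b (Φ m) - eval x (Φ m)) * 2 ^ g m := by
        unfold nat
        ring
      have hp : (0 : ℝ) < 2 ^ g m := by positivity
      have e2 : |(b m - x m) * 2 ^ g m| ≤ 1 := by
        rw [abs_mul, abs_of_pos hp]
        exact ((mul_le_mul_of_nonneg_right (hb m h0 hm) hp.le).trans (hη m h0 hm)).trans hε1
      have e3 : |(eval b (Φ m) - eval x (Φ m)) * 2 ^ g m| ≤ 1 := by
        rw [abs_mul, abs_of_pos hp]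
        have := hΦ m h0 hm.le
        rw [le_div_iff₀ hp] at this
        exact this.trans hε1
      have e4 := hx m hm
      rw [e1]
      rw [abs_le] at e2 e3 e4 ⊢
      constructor <;> linarith [e2.1, e2.2, e3.1, e3.2, e4.1, e4.2]
  have hxn : ∀ m < l, |nat g Φ x m| ≤ E := fun m hm => (hx m hm).trans (by linarith)
  have hzb := zs_bd hP hN hE hW (by omega) hbn
  have hzx := zs_bd hP hN hE hW (by omega) hxn
  have up : ∀ k < l, W ^ dd K k / 2 ^ g k ≤ W ^ dd K n / 2 ^ g k := fun k hk =>
    div_le_div_of_nonneg_right (pow_le_pow_right₀ (by linarith) (dd_mono (by omega)))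
      (by positivity)
  intro m
  induction m using Nat.strong_induction_on with
  | _ m ih =>
    intro m1 ml
    have hp : (0 : ℝ) < 2 ^ g m := by positivity
    have hQm : 1 ≤ Q ^ m := one_le_pow₀ (by linarith)
    have h1 := hN.lip (l := m) (by omega) (B := W ^ dd K n) (δ := (1 + Q ^ m) * ε)
      (one_le_pow₀ (by linarith)) (by positivity) (β := zs P b) (β' := zs P x)
      (fun k hk => (hzb k (by omega)).trans (up k (by omega)))
      (fun k hk => (hzx k (by omega)).trans (up k (by omega))) (fun k hk => by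
        have hk' : (0 : ℝ) < 2 ^ g k := by positivity
        rcases Nat.eq_zero_or_pos k with h0 | h0
        · subst h0
          have e1 : zs P b 0 = zs P x 0 := by
            unfold zs
            rw [b0, Pool.SYS35.eval_congr (hP 0) (b := b) (b' := x) fun i hi =>
              absurd hi (Nat.not_lt_zero _)]
          rw [e1, sub_self, abs_zero]
          positivity
        · have e1 : zs P b k - zs P x k = (b k - x k) - (eval b (P k) - eval x (P k)) := by
            unfold zs
            ring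
          rw [e1]
          refine (abs_sub _ _).trans ?_
          have e2 : |b k - x k| ≤ ε / 2 ^ g k := by
            rw [le_div_iff₀ hk']
            exact (mul_le_mul_of_nonneg_right (hb k h0 (by omega)) hk'.le).trans
              (hη k h0 (by omega))
          have e3 := ih k hk h0 (by omega)
          have e4 : Q ^ (k + 1) * ε / 2 ^ g k ≤ Q ^ m * ε / 2 ^ g k :=
            div_le_div_of_nonneg_right (mul_le_mul_of_nonneg_right
              (pow_le_pow_right₀ (by linarith) (by omega)) hε) hk'.le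
          have e5 : (1 + Q ^ m) * ε / 2 ^ g k = ε / 2 ^ g k + Q ^ m * ε / 2 ^ g k := by ring
          linarith)
    rw [chr_eval hP, chr_eval hP, map_sub, map_sub] at h1
    have h2 := hΦ m m1 ml
    have e1 : eval b (P m) - eval x (P m) = (eval b (Φ m) - eval x (Φ m)) -
        (eval b (Φ m) - eval b (P m) - (eval x (Φ m) - eval x (P m))) := by ring
    rw [e1]
    refine (abs_sub _ _).trans ((add_le_add h2 h1).trans ?_)
    rw [← add_div]
    refine div_le_div_of_nonneg_right ?_ hp.le
    obtain ⟨A, hA⟩ : ∃ A, A = (K : ℝ) * (W ^ dd K n) ^ K * E := ⟨_, rfl⟩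
    have hA0 : 0 ≤ A := by
      rw [hA]
      positivity
    rw [← hA] at hQ ⊢
    rw [pow_succ]
    obtain ⟨y, hy⟩ : ∃ y, y = Q ^ m := ⟨_, rfl⟩
    rw [← hy] at hQm ⊢
    have h3 : 1 + A * (1 + y) ≤ y * Q := by
      rw [hQ]
      nlinarith
    calc ε + A * ((1 + y) * ε) = (1 + A * (1 + y)) * ε := by ring
      _ ≤ y * Q * ε := mul_le_mul_of_nonneg_right h3 hε

end size

end Pool.AF12
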