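import Pool.Agent.H35.TMU.Tmu
import Pool.Agent.H35.SYS.Base
import Pool.Agent.H65.LEAF.Low
import Pool.Agent.H12.TT.Yb

/-!
# Digits of the time in a window, heights of the first coordinates: entropy on events
-/

set_option autoImplicit false

namespace Pool.AF12

open Finset Real MvPolynomial
open Pool.Agent.H49.Ent Pool.Agent.H32.Dense Pool.STK Pool.STAT
open Pool.P4 (rt)
open Pool.BFL (Pb)
open Pool.TC12 (cond_sup lg_opt)

variable {D : NDat2} {n K J a₀ w₀ z M : ℕ} {lam gam : ℕ → ℝ} {κ C₁ : ℝ} {q : D.Ω → ℝ}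

/-- The first `r` digits of the relative time in the window of length `2 ^ (-w)`. -/
def td (D : NDat2) (J w r : ℕ) (ω : D.Ω) : ℕ := D.T ω % 2 ^ (J - w) / 2 ^ (J - w - r)

theorem td_lt {J w r : ℕ} (h : w + r ≤ J) (ω : D.Ω) : td D J w r ω < 2 ^ r := by
  unfold td
  rw [Nat.div_lt_iff_lt_mul (by positivity), ← pow_add, show r + (J - w - r) = J - w by omega]
  exact Nat.mod_lt _ (by positivity)

theorem rt_eq {J w : ℕ} {ω : D.Ω} (hX : D.X ω 0 = (D.T ω : ℝ) / 2 ^ J) (hw : w ≤ J) :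
    rt D J w ω = ((D.T ω % 2 ^ (J - w) : ℕ) : ℝ) / 2 ^ (J - w) := by
  have h := Nat.div_add_mod (D.T ω) (2 ^ (J - w))
  have h2 : ((2 ^ (J - w) * (D.T ω / 2 ^ (J - w)) + D.T ω % 2 ^ (J - w) : ℕ) : ℝ) = D.T ω := by
    rw [h]
  obtain ⟨a, ha⟩ : ∃ a, a = D.T ω / 2 ^ (J - w) := ⟨_, rfl⟩
  obtain ⟨b, hb⟩ : ∃ b, b = D.T ω % 2 ^ (J - w) := ⟨_, rfl⟩
  unfold rt Pool.P4.t0
  rw [hX, ← h2, ← ha, ← hb]
  have h3 : (2 : ℝ) ^ J = 2 ^ (J - w) * 2 ^ w := by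
    rw [← pow_add]
    congr 1
    omega
  rw [h3]
  push_cast
  field_simp
  ring

theorem rt_td {J w r : ℕ} {ω : D.Ω} (hX : D.X ω 0 = (D.T ω : ℝ) / 2 ^ J) (h : w + r ≤ J) :
    |rt D J w ω - (td D J w r ω : ℝ) / 2 ^ r| ≤ 1 / 2 ^ r := by
  rw [rt_eq hX (by omega)]
  obtain ⟨b, hb⟩ : ∃ b, b = D.T ω % 2 ^ (J - w) := ⟨_, rfl⟩
  have e1 : td D J w r ω = b / 2 ^ (J - w - r) := by
    unfold td
    rw [hb]
  rw [e1, ← hb]
  have h3 : (2 : ℝ) ^ (J - w) = 2 ^ (J - w - r) * 2 ^ r := by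
    rw [← pow_add]
    congr 1
    omega
  have h4 : ((b / 2 ^ (J - w - r) : ℕ) : ℝ) * 2 ^ (J - w - r) ≤ b := by
    exact_mod_cast Nat.div_mul_le_self b (2 ^ (J - w - r))
  have h5 : (b : ℝ) < (((b / 2 ^ (J - w - r) : ℕ) : ℝ) + 1) * 2 ^ (J - w - r) := by
    have := Nat.lt_mul_div_succ b (show 0 < 2 ^ (J - w - r) by positivity)
    have h6 : b < (b / 2 ^ (J - w - r) + 1) * 2 ^ (J - w - r) := by
      rw [mul_comm]
      exact this
    exact_mod_cast h6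
  obtain ⟨x, hx⟩ : ∃ x : ℝ, x = ((b / 2 ^ (J - w - r) : ℕ) : ℝ) := ⟨_, rfl⟩
  rw [← hx] at h4 h5 ⊢
  have hp : (0 : ℝ) < 2 ^ (J - w - r) := by positivity
  have hr : (0 : ℝ) < 2 ^ r := by positivity
  have h6 : (b : ℝ) / 2 ^ (J - w) - x / 2 ^ r = (b - x * 2 ^ (J - w - r)) / 2 ^ (J - w - r) / 2 ^ r := by
    rw [h3]
    field_simp
  rw [h6, abs_div, abs_of_pos hr]
  refine div_le_div_of_nonneg_right ?_ hr.le
  rw [abs_div, abs_of_pos hp, div_le_one hp, abs_le]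
  constructor <;> linarith

/-- The digits of the time are full given the line and the window. -/
theorem td_low (hq : IsLaw q) {w r : ℕ} (h0 : w₀ ≤ w) (h : w + r ≤ J)
    (hln : Det q D.ln (fun ω => D.T ω / 2 ^ (J - w₀))) (hT : D.TmU J w₀ z κ q) :
    (r : ℝ) * Real.log 2 - κ * z ≤ CH q (td D J w r) (D.wn J w) := by
  have h1 := Pool.TMU.CH_low hq D.T D.ln (w := w) h0 (by omega) hln hT
  have h2 := CH_le_add hq.nonneg D.T (td D J w r) (D.wn J w)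
  have h3 := Pool.TMU.CH_win' hq D.T (fun ω => (td D J w r ω, D.wn J w ω)) (J := J) (w := w + r) h
    (by
      intro ω ω' _ _ e
      obtain ⟨e1, e2⟩ := Prod.ext_iff.1 e
      have e3 : D.T ω / 2 ^ (J - w) = D.T ω' / 2 ^ (J - w) := (Prod.ext_iff.1 e2).2
      have e4 : ∀ x : ℕ, x / 2 ^ (J - (w + r)) =
          x / 2 ^ (J - w) * 2 ^ r + x % 2 ^ (J - w) / 2 ^ (J - w - r) := by
        intro x
        have e5 : J - w = r + (J - w - r) := by omega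
        obtain ⟨s, hs⟩ : ∃ s, s = J - w - r := ⟨_, rfl⟩
        rw [← hs] at e5 ⊢
        rw [show J - (w + r) = s by omega, e5]
        have e6 := Nat.div_add_mod x (2 ^ (r + s))
        obtain ⟨a, ha⟩ : ∃ a, a = x / 2 ^ (r + s) := ⟨_, rfl⟩
        obtain ⟨b, hb⟩ : ∃ b, b = x % 2 ^ (r + s) := ⟨_, rfl⟩
        rw [← ha, ← hb] at e6 ⊢
        rw [← e6, pow_add, mul_right_comm, Nat.add_comm, Nat.mul_comm (2 ^ r * a),
          ← Nat.mul_comm, Nat.add_comm]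
        rw [show 2 ^ r * a * 2 ^ s + b = b + 2 ^ s * (a * 2 ^ r) by ring,
          Nat.add_mul_div_left _ _ (by positivity)]
        ring
      show D.T ω / 2 ^ (J - (w + r)) = D.T ω' / 2 ^ (J - (w + r))
      rw [e4, e4, e3]
      have e7 : D.T ω % 2 ^ (J - w) / 2 ^ (J - w - r) = D.T ω' % 2 ^ (J - w) / 2 ^ (J - w - r) := e1
      rw [e7])
  have h4 : ((J - w : ℕ) : ℝ) = r + ((J - (w + r) : ℕ) : ℝ) := by
    rw [← Nat.cast_add]
    congr 1
    omega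
  have h5 : D.wn J w = fun ω => (D.ln ω, D.T ω / 2 ^ (J - w)) := rfl
  rw [← h5, h4, add_mul] at h1
  linarith

end Pool.AF12
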