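import Pool.Agent.H12.AF.Aff
import Pool.Agent.H12.AF.Tdg

/-!
# Closed affine frames are charts

`chtAff : Pool.AF37.ChtAff`.
-/

set_option autoImplicit false

namespace Pool.AF12

open Finset Real MvPolynomial
open Pool.Agent.H49.Ent Pool.Agent.H32.Dense Pool.STK Pool.STAT Pool.MIC.Frm Pool.FRM
open Pool.P4 (rt t0 pp PthC)
open Pool.BFL (Pb)

/-- The numbers. -/
theorem num_cha (n K : ℕ) (C : ℝ) : ∃ t : ℕ, 1 ≤ t ∧ ∀ (z n' : ℕ) (E W Q : ℝ), 1 ≤ z → n' ≤ n →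
    E = exp ((C + 3) * z) → 0 ≤ C → W = 4 * E →
    Q = 2 * (K * (W ^ dd K n') ^ K * E) + 2 →
    2 * W ^ dd K n' ≤ 2 ^ (t * z) ∧ ∀ l ≤ n', Q ^ (l + 1) ≤ 2 ^ (t * z) := by
  obtain ⟨t₀, ht₀⟩ := pow_unbounded_of_one_lt (exp (C + 5)) (one_lt_two : (1 : ℝ) < 2)
  obtain ⟨p, hp⟩ : ∃ p, p = K + dd K n * K + 1 := ⟨_, rfl⟩
  refine ⟨t₀ * (p * (n + 1) + (dd K n + 1)) + 1, by omega, ?_⟩
  intro z n' E W Q hz hn hE hC hW hQ
  have hzr : (1 : ℝ) ≤ z := by exact_mod_cast hz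
  have hE1 : 1 ≤ E := by
    rw [hE]
    exact Real.one_le_exp (by positivity)
  have hW4 : 4 ≤ W := by linarith
  have hW1 : 1 ≤ W := by linarith
  have hWt : W ≤ 2 ^ (t₀ * z) := by
    have h1 : (4 : ℝ) ≤ exp (2 * z) := by
      have h2 : (2 : ℝ) ≤ exp 1 := by
        have := Real.add_one_le_exp (1 : ℝ)
        linarith
      calc (4 : ℝ) = 2 * 2 := by norm_num
        _ ≤ exp 1 * exp 1 := mul_le_mul h2 h2 (by norm_num) (by positivity)
        _ = exp (2 * 1) := by rw [← Real.exp_add]; norm_num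
        _ ≤ exp (2 * z) := Real.exp_le_exp.2 (by linarith)
    calc W = 4 * exp ((C + 3) * z) := by rw [hW, hE]
      _ ≤ exp (2 * z) * exp ((C + 3) * z) := mul_le_mul_of_nonneg_right h1 (exp_pos _).le
      _ = exp (C + 5) ^ z := by
        rw [← Real.exp_add, ← Real.exp_nat_mul]
        congr 1
        ring
      _ ≤ (2 ^ t₀) ^ z := pow_le_pow_left₀ (exp_pos _).le ht₀.le _
      _ = 2 ^ (t₀ * z) := by rw [← pow_mul]
  have up : ∀ s : ℕ, s ≤ p * (n + 1) + (dd K n + 1) →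
      W ^ s ≤ 2 ^ ((t₀ * (p * (n + 1) + (dd K n + 1)) + 1) * z) := by
    intro s hs
    calc W ^ s ≤ (2 ^ (t₀ * z)) ^ s := pow_le_pow_left₀ (by linarith) hWt _
      _ = 2 ^ (t₀ * z * s) := by rw [← pow_mul]
      _ ≤ _ := by
        refine pow_le_pow_right₀ (by norm_num) ?_
        have h1 : t₀ * s ≤ t₀ * (p * (n + 1) + (dd K n + 1)) := Nat.mul_le_mul_left _ hs
        calc t₀ * z * s = t₀ * s * z := by ring
          _ ≤ (t₀ * (p * (n + 1) + (dd K n + 1)) + 1) * z := Nat.mul_le_mul_right _ (by omega)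
  have hdd : dd K n' ≤ dd K n := dd_mono hn
  constructor
  · calc 2 * W ^ dd K n' ≤ W * W ^ dd K n :=
          mul_le_mul (by linarith) (pow_le_pow_right₀ hW1 hdd) (by positivity) (by linarith)
      _ = W ^ (dd K n + 1) := by rw [pow_succ']
      _ ≤ _ := up _ (by omega)
  · intro l hl
    have hQ1 : 1 ≤ Q := by
      rw [hQ]
      have : 0 ≤ (K : ℝ) * (W ^ dd K n') ^ K * E := by positivity
      linarith
    have hQW : Q ≤ W ^ p := by
      have h0 : (K : ℝ) ≤ W ^ K := by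
        calc (K : ℝ) ≤ 2 ^ K := by exact_mod_cast (Nat.lt_two_pow_self (n := K)).le
          _ ≤ W ^ K := pow_le_pow_left₀ (by norm_num) (by linarith) _
      have h1 : (W ^ dd K n') ^ K ≤ W ^ (dd K n * K) := by
        rw [← pow_mul]
        exact pow_le_pow_right₀ hW1 (Nat.mul_le_mul_right _ hdd)
      have h2 : (K : ℝ) * (W ^ dd K n') ^ K ≤ W ^ K * W ^ (dd K n * K) :=
        mul_le_mul h0 h1 (by positivity) (by positivity)
      have h3 : W ^ p = W ^ K * W ^ (dd K n * K) * W := by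
        rw [hp, pow_succ, pow_add]
      have h4 : (1 : ℝ) ≤ W ^ K * W ^ (dd K n * K) :=
        one_le_mul_of_one_le_of_one_le (one_le_pow₀ hW1) (one_le_pow₀ hW1)
      obtain ⟨x, hx⟩ : ∃ x, x = W ^ K * W ^ (dd K n * K) := ⟨_, rfl⟩
      rw [hQ, h3]
      rw [← hx] at h2 h4 ⊢
      have h5 : (K : ℝ) * (W ^ dd K n') ^ K * E ≤ x * E := mul_le_mul_of_nonneg_right h2 (by linarith)
      have h6 : x * W = 4 * (x * E) := by
        rw [hW]
        ring
      have h7 : 1 ≤ x * E := one_le_mul_of_one_le_of_one_le h4 hE1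
      linarith
    calc Q ^ (l + 1) ≤ (W ^ p) ^ (l + 1) := pow_le_pow_left₀ (by linarith) hQW _
      _ = W ^ (p * (l + 1)) := by rw [← pow_mul]
      _ ≤ _ := up _ (by
        have : p * (l + 1) ≤ p * (n + 1) := Nat.mul_le_mul_left _ (by omega)
        omega)

/-- **Closed affine frames are charts.** -/
theorem chtAff : Pool.AF37.ChtAff := by
  classical
  intro n K C₁ C hn hC
  obtain ⟨K₂, hK₂⟩ : ∃ K₂, K₂ = max K 1 * 2 ^ n := ⟨_, rfl⟩
  obtain ⟨t, ht1, hnum⟩ := num_cha n K₂ C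
  refine ⟨t, 1, ht1, ?_⟩
  intro D J a₀ w₀ z M n' i j v U lam gam κ q P E hz hO hS hSl hn' hi hjv hv hU hP1 hP2 hE
  obtain ⟨w, hw⟩ : ∃ w, w = w₀ + v * z := ⟨_, rfl⟩
  have hjM : j ≤ M := by omega
  have hzr : (1 : ℝ) ≤ z := by exact_mod_cast hz
  have hjw : w₀ + j * z ≤ w := by
    rw [hw]
    exact Nat.add_le_add_left (Nat.mul_le_mul_right _ hjv.le) _
  have hwJ : w ≤ J := by
    have h1 := hO.thin
    have h2 := hO.top
    have h3 : v * z ≤ (M + 1) * z := Nat.mul_le_mul_right z (by omega)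
    rw [hw]
    omega
  obtain ⟨EE, hEE⟩ : ∃ EE : ℝ, EE = exp ((C + 3) * z) := ⟨_, rfl⟩
  obtain ⟨W, hW⟩ : ∃ W : ℝ, W = 4 * EE := ⟨_, rfl⟩
  have hCz : 0 ≤ C * z := by positivity
  have hEE3 : 3 ≤ EE := by
    rw [hEE]
    have h1 := Real.add_one_le_exp ((C + 3) * (z : ℝ))
    have h2 : (3 : ℝ) * 1 ≤ 3 * z := mul_le_mul_of_nonneg_left hzr (by norm_num)
    linarith [show (C + 3) * (z : ℝ) = C * z + 3 * z by ring]
  have hE1 : 1 ≤ EE := by linarith
  -- the frames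
  obtain ⟨g, hg⟩ : ∃ g, g = D.g i j := ⟨_, rfl⟩
  have nb : ∀ ω, E ω → Nb K₂ n' g (fun m => chr (P (D.c i j ω))
      (D.Φ i j ω m - P (D.c i j ω) m)) EE := by
    intro ω hω
    obtain ⟨-, -, h3⟩ := hE ω hω
    have hv : ∀ l, (D.Φ i j ω l - P (D.c i j ω) l).vars ⊆ range l := fun l =>
      (vars_sub_subset _).trans (Finset.union_subset (hO.P_tri i j _ l) (hP1 _ l))
    refine ⟨fun l _ => chr_vars (hP1 _) (hv l), fun l hl => ?_, fun l hl => ?_⟩
    · have h4 : (D.Φ i j ω l - P (D.c i j ω) l).totalDegree ≤ max K 1 :=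
        (totalDegree_sub _ _).trans (max_le ((hO.P_deg i j _ l).trans (le_max_left _ _))
          ((hP2 _ l).trans (le_max_right _ _)))
      have h5 := chr_deg (K := 1) (m := l) (hP1 (D.c i j ω)) (fun i _ => hP2 _ i) (hv l) h4
      refine h5.trans ?_
      rw [hK₂]
      exact Nat.mul_le_mul_left _ (Nat.pow_le_pow_right (by norm_num) (by omega))
    · rw [hg]
      refine (h3 l hl).trans (div_le_div_of_nonneg_right ?_ (by positivity))
      rw [hEE]
      exact Real.exp_le_exp.2 (by nlinarith)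
  -- the context of the line and of the window
  obtain ⟨cf, hcf⟩ : ∃ cf : D.Λ × ℕ → ℕ → PN, cf = fun x =>
    if h : ∃ ω, E ω ∧ D.wn J w ω = x then P (D.c i j h.choose) else (fun _ => 0) := ⟨_, rfl⟩
  have hcfE : ∀ ω, E ω → cf (D.wn J w ω) = P (D.c i j ω) := by
    intro ω hω
    have h : ∃ ω', E ω' ∧ D.wn J w ω' = D.wn J w ω := ⟨ω, hω, rfl⟩
    rw [hcf]
    simp only
    rw [dif_pos h]
    congr 1
    exact hO.c_wn i hi j hjM _ _ (hE _ h.choose_spec.1).1 (hE ω hω).1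
      (Pool.LSH.wn_coarse hjw hwJ h.choose_spec.2)
  -- the heights along the line
  have hxl : ∀ ω, E ω → ∀ m ≤ n, D.X ω m = pp D (D.ln ω) (D.X ω 0) m := by
    intro ω hω m hm
    unfold pp
    by_cases h0 : m = 0
    · rw [if_pos h0, h0]
    · rw [if_neg h0]
      exact hO.str ω (hE ω hω).1 m hm
  have hyc : ∀ ω, E ω → ∀ l ≤ n', D.yc J w₀ z i j v (fun c => P c.1) ω l =
      nat g (P (D.c i j ω)) (pp D (D.ln ω) (D.X ω 0)) l := by
    intro ω hω l hl
    unfold NDat2.yc nat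
    change 2 ^ D.g i j l * (D.X ω l - eval (D.X ω) (P (D.c i j ω) l)) = _
    rw [← hg, Pool.SYS35.eval_congr (hP1 _ l) (b := D.X ω) (b' := pp D (D.ln ω) (D.X ω 0))
      fun m hm => hxl ω hω m (by omega), ← hxl ω hω l (by omega)]
  have hsz : ∀ ω, E ω → ∀ s : ℝ, |s - D.X ω 0| ≤ 1 / 2 ^ w → ∀ l ≤ n',
      |nat g (P (D.c i j ω)) (pp D (D.ln ω) s) l| ≤ W ^ dd K₂ n' := by
    intro ω hω s hs l hl
    obtain ⟨h1, h2, h3⟩ := hE ω hω
    have h4 := zs_bd (hP1 (D.c i j ω)) (nb ω hω) hE1 hW (b := pp D (D.ln ω) s) (l := n' + 1) le_rfl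
      (fun m hm => by
        have h5 := h2 i hi j hjM m (by omega) s (hs.trans (by
          refine one_div_le_one_div_of_le (by positivity) (pow_le_pow_right₀ (by norm_num) hjw)))
        rw [hg]
        refine h5.trans ?_
        rw [hEE]
        exact Real.exp_le_exp.2 (by nlinarith)) l (by omega)
    rw [nat_eq, abs_mul, abs_of_pos (by positivity : (0 : ℝ) < 2 ^ g l)]
    rw [le_div_iff₀ (by positivity)] at h4
    rw [mul_comm]
    exact h4.trans (pow_le_pow_right₀ (by linarith) (dd_mono hl))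
  obtain ⟨hn1, hn2⟩ := hnum z n' EE W _ hz hn' hEE hC hW rfl
  have hWt : W ^ dd K₂ n' ≤ 2 ^ (t * z) := by
    have : 0 ≤ W ^ dd K₂ n' := by
      have : 0 ≤ W := by linarith
      positivity
    linarith
  -- the left end of the window
  have ht0 : ∀ ω, t0 D J w ω ≤ D.X ω 0 ∧ D.X ω 0 < t0 D J w ω + 1 / 2 ^ w := by
    intro ω
    have hw2 : (0 : ℝ) < 2 ^ w := by positivity
    have h2 : rt D J w ω = 2 ^ w * (D.X ω 0 - t0 D J w ω) := rfl
    have h1 := rt_eq (hO.X_zero ω) hwJ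
    have h3 : 0 ≤ rt D J w ω := by
      rw [h1]
      positivity
    have h4 : rt D J w ω < 1 := by
      rw [h1, div_lt_one (by positivity)]
      exact_mod_cast Nat.mod_lt _ (by positivity)
    rw [h2] at h3 h4
    constructor
    · by_contra hcon
      rw [not_le] at hcon
      nlinarith
    · rw [mul_comm, ← lt_div_iff₀ hw2] at h4
      linarith
  have hs0 : ∀ ω, |t0 D J w ω - D.X ω 0| ≤ 1 / 2 ^ w := by
    intro ω
    obtain ⟨h1, h2⟩ := ht0 ω
    rw [abs_le]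
    constructor <;> linarith
  have hs1 : ∀ ω, |t0 D J w ω + 1 / 2 ^ w - D.X ω 0| ≤ 1 / 2 ^ w := by
    intro ω
    obtain ⟨h1, h2⟩ := ht0 ω
    rw [abs_le]
    have : (0 : ℝ) < 1 / 2 ^ w := by positivity
    constructor <;> linarith
  obtain ⟨A, hA⟩ : ∃ A : D.Λ × ℕ → ℕ → ℝ, A = fun x m =>
    nat g (cf x) (pp D x.1 (((x.2 * 2 ^ (J - w) : ℕ) : ℝ) / 2 ^ J)) m := ⟨_, rfl⟩
  obtain ⟨B, hB⟩ : ∃ B : D.Λ × ℕ → ℕ → ℝ, B = fun x m =>
    nat g (cf x) (pp D x.1 (1 / 2 ^ w)) m - nat g (cf x) (pp D x.1 0) m := ⟨_, rfl⟩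
  have hAE : ∀ ω, E ω → ∀ m, A (D.wn J w ω) m =
      nat g (P (D.c i j ω)) (pp D (D.ln ω) (t0 D J w ω)) m := by
    intro ω hω m
    rw [hA]
    simp only
    rw [hcfE ω hω]
    rfl
  have hBE : ∀ ω, E ω → ∀ m, B (D.wn J w ω) m =
      nat g (P (D.c i j ω)) (pp D (D.ln ω) (1 / 2 ^ w)) m -
        nat g (P (D.c i j ω)) (pp D (D.ln ω) 0) m := by
    intro ω hω m
    rw [hB]
    simp only
    rw [hcfE ω hω]
    rfl
  have hBE' : ∀ ω, E ω → ∀ m, B (D.wn J w ω) m =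
      nat g (P (D.c i j ω)) (pp D (D.ln ω) (t0 D J w ω + 1 / 2 ^ w)) m -
        nat g (P (D.c i j ω)) (pp D (D.ln ω) (t0 D J w ω)) m := by
    intro ω hω m
    rw [hBE ω hω]
    exact ((lin_nat hS (D.ln ω) g (hP2 (D.c i j ω) m)).three (t0 D J w ω) 0 (1 / 2 ^ w)).2.symm
  refine ⟨A, B, ⟨fun c l => hP2 _ l, fun c l => hP1 _ l, ?_, ?_, ?_, ?_, ?_⟩, ?_⟩
  · -- the size
    intro ω _ hω l _ hl
    rw [hyc ω hω l hl]
    refine (hsz ω hω _ ?_ l hl).trans hWt
    rw [sub_self, abs_zero]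
    positivity
  · intro ω _ hω l _ hl
    rw [← hw, hAE ω hω]
    exact (hsz ω hω _ (hs0 ω) l hl).trans hWt
  · intro ω _ hω l _ hl
    rw [← hw, hBE' ω hω]
    refine (abs_sub _ _).trans ?_
    have h1 := hsz ω hω _ (hs0 ω) l hl
    have h2 := hsz ω hω _ (hs1 ω) l hl
    linarith
  · -- the lines
    intro ω _ hω l _ hl
    have h1 : nat g (P (D.c i j ω)) (pp D (D.ln ω) (D.X ω 0)) l =
        A (D.wn J w ω) l + rt D J w ω * B (D.wn J w ω) l := by
      rw [hAE ω hω, hBE ω hω]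
      obtain ⟨a, b, hf⟩ := lin_nat hS (D.ln ω) g (hP2 (D.c i j ω) l)
      have h2 : rt D J w ω = 2 ^ w * (D.X ω 0 - t0 D J w ω) := rfl
      beta_reduce at hf
      rw [h2, hf, hf, hf, hf]
      field_simp
      ring
    rw [hyc ω hω l hl, ← hw, h1, sub_self, abs_zero]
    positivity
  · -- the slopes
    intro ω _ hω l l1 hl b hb0 hbm
    obtain ⟨h1, h2, h3⟩ := hE ω hω
    have hUM : U * z ≤ M * z := Nat.mul_le_mul_right _ hU
    have hε : (0 : ℝ) < 1 / 2 ^ (U * z) := by positivity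
    have h4 := slp_fr (x := D.X ω) (b := b) (l := l) (η := 1 / 2 ^ J) (ε := 1 / 2 ^ (U * z))
      (S := 1) (hP1 (D.c i j ω)) (nb ω hω) (hO.P_tri i j _ 0) hW hl hε.le
      (by
        rw [div_le_one (by positivity)]
        exact one_le_pow₀ (by norm_num)) le_rfl (by linarith)
      (fun m hm => by
        have h5 := hO.hgt i hi j hjM ω h1 m (by omega)
        unfold nat
        rw [abs_mul, abs_of_pos (by positivity : (0 : ℝ) < 2 ^ g m), hg]
        rw [le_div_iff₀ (by positivity)] at h5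
        rw [mul_comm]
        exact h5) hb0 (fun m m1 ml => hbm m m1 ml)
      (fun m m1 ml => by
        have h5 := hO.g_le i hi j hjM m m1 (by omega)
        rw [hg, div_mul_eq_mul_div, one_mul, div_le_div_iff₀ (by positivity) (by positivity),
          one_mul, ← pow_add]
        exact pow_le_pow_right₀ (by norm_num) (by omega))
      (fun m m1 ml => by
        have h5 := hSl i hi j hjM ω h1 m m1 (by omega) b hb0 (fun k k1 km => hbm k k1 (by omega))
        rw [hg]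
        refine h5.trans ?_
        rw [div_div, ← pow_add]
        exact one_div_le_one_div_of_le (by positivity)
          (pow_le_pow_right₀ (by norm_num) (by omega))) rfl l l1 le_rfl
    change |eval b (P (D.c i j ω) l) - eval (D.X ω) (P (D.c i j ω) l)| ≤ _
    refine h4.trans ?_
    obtain ⟨x, hx⟩ : ∃ x : ℝ, x = (2 * ((K₂ : ℝ) * (W ^ dd K₂ n') ^ K₂ * EE) + 2) ^ (l + 1) := ⟨_, rfl⟩
    have h6 := hn2 l hl
    rw [← hx] at h6 ⊢
    have h7 : x * (1 / 2 ^ (U * z)) / 2 ^ g l = x / 2 ^ (D.g i j l + U * z) := by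
      rw [hg, pow_add]
      field_simp
    rw [h7]
    exact div_le_div_of_nonneg_right h6 (by positivity)
  · intro ω hω m _ _
    rw [← hw, ← hg]
    exact hBE ω hω m

end Pool.AF12
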