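import Pool.Agent.H37.AF.All

/-!
# TC: the geometry at several places of a column, with affine frames

`shf_deg_one`: the shifted frame of affine frames is affine. `geo_aff`: `geoQ` with the affine frames
of `AffEv`.
-/

set_option autoImplicit false

namespace Pool.AF12

open Finset Real MvPolynomial
open Pool.Agent.H49.Ent Pool.Agent.H32.Dense Pool.STK Pool.STAT Pool.MIC.Frm Pool.MIC7 Pool.FRM
open Pool.GSD Pool.TC Pool.P4O Pool.TCO Pool.TC37F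
open Pool.BFL (Pb)
open Pool.P4 (t0 rt pp PthC FraC bb ze zt z0 GoodS FrP exp_mz)

/-- **The axioms of a cell with a smaller grid.** -/
theorem ok2_monoM {D : NDat2} {n K J a₀ w₀ z M M' : ℕ} {lam gam : ℕ → ℝ} {κ C₁ : ℝ}
    {q : D.Ω → ℝ} (hO : D.Ok2 n K J a₀ w₀ z M lam gam κ C₁ q) (hM : M' ≤ M) :
    D.Ok2 n K J a₀ w₀ z M' lam gam κ C₁ q := by
  have hMz : (M' + 1) * z ≤ (M + 1) * z := Nat.mul_le_mul_right z (by omega)
  have hMz' : M' * z ≤ M * z := Nat.mul_le_mul_right z hM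
  exact
    { hO with
      thin := by have := hO.thin; omega
      top := by have := hO.top; omega
      c_wn := fun i hi j hj => hO.c_wn i (by omega) j (by omega)
      c_i := fun i hi j hj => hO.c_i i (by omega) j (by omega)
      c_ij := fun i hi j hj => hO.c_ij i (by omega) j (by omega)
      i_few := fun i hi j hj => hO.i_few i (by omega) j (by omega)
      ij_few := fun i hi j hj => hO.ij_few i (by omega) j (by omega)
      c_T := fun i hi j hj => hO.c_T i (by omega) j (by omega)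
      s_pt := fun i hi j hj => hO.s_pt i (by omega) j (by omega)
      s_c := fun i hi j hj => hO.s_c i (by omega) j (by omega)
      net := fun i hi j hj => hO.net i (by omega) j (by omega)
      hom := fun i hi j hj => hO.hom i (by omega) j (by omega)
      g_ge := fun i hi j hj => hO.g_ge i (by omega) j (by omega)
      g_le := fun i hi j hj l h1 h2 => by
        have := hO.g_le i (by omega) j (by omega) l h1 h2
        omega
      hgt := fun i hi j hj => hO.hgt i (by omega) j (by omega)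
      pos := fun i hi j hj => hO.pos i (by omega) j (by omega)
      agr := fun i hi j hj => hO.agr i (by omega) j (by omega)
      full := fun i hi j hj U hU => hO.full i (by omega) j (by omega) U (by omega) }

/-- The shift of affine frames is affine. -/
theorem sh1_deg_one {n : ℕ} {P P' : ℕ → PN} (hP' : TriN P') (dP : ∀ l, (P l).totalDegree ≤ 1)
    (dP' : ∀ l, (P' l).totalDegree ≤ 1) (l : ℕ) : (sh1 n P P' l).totalDegree ≤ 1 := by
  unfold sh1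
  split_ifs with hl
  · rw [totalDegree_neg]
    have h1 : (chr P' (P l - P' l)).totalDegree ≤ 1 :=
      Pool.AF37.chr_aff hP' dP' ((totalDegree_sub _ _).trans (max_le (dP l) (dP' l)))
    have h2 : (tp (chr P' (P l - P' l))).totalDegree ≤ 1 := by
      refine le_trans ?_ h1
      exact Finset.sup_mono (tp_supp _)
    refine (Dgb.deg_bind (B := 1) fun k hk => ?_).trans (by rw [mul_one]; exact h2)
    exact (totalDegree_sub _ _).trans (max_le (by rw [totalDegree_X]) (dP' k))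
  · rw [totalDegree_zero]
    exact Nat.zero_le _

theorem shf_deg_one {n : ℕ} {P P' : ℕ → PN} (hP' : TriN P') (dP : ∀ l, (P l).totalDegree ≤ 1)
    (dP' : ∀ l, (P' l).totalDegree ≤ 1) (l : ℕ) : (shf n P P' l).totalDegree ≤ 1 := by
  rcases Nat.eq_zero_or_pos l with h0 | h0
  · rw [h0, shf_zero]
    exact dP' 0
  · rw [shf_pos n P P' h0]
    exact (totalDegree_add _ _).trans (max_le (dP l) (sh1_deg_one hP' dP dP' l))

/-- **Closed affine frames of a place.** On the good event there are closed affine frames as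
functions of the context. -/
theorem frames_aff {D : NDat2} {n K J a₀ w₀ z M i j r : ℕ} {lam gam : ℕ → ℝ} {κ C₁ C : ℝ}
    {q : D.Ω → ℝ} (hO : D.Ok2 n K J a₀ w₀ z M lam gam κ C₁ q) (hi' : i < M) (hj : j < M)
    {E : D.Ω → Prop} (hEd : ∀ ω, E ω → 0 < q ω ∧ FraC D n 1 M z C ω) :
    ∃ P : D.Γ × D.Γ → ℕ → PN, (∀ v, TriN (P v)) ∧ (∀ v l, (P v l).totalDegree ≤ 1) ∧
      ∀ ω, E ω → FrP D n 1 z i j r C (P (bb D i j r ω)) ω := by
  have hi : i ≤ M := hi'.le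
  have hex : ∀ v : D.Γ × D.Γ, ∃ P : ℕ → PN, TriN P ∧ (∀ l, (P l).totalDegree ≤ 1) ∧
      ∀ ω, E ω → bb D i j r ω = v → FrP D n 1 z i j r C P ω := by
    intro v
    by_cases hv : ∃ ω, E ω ∧ bb D i j r ω = v
    · obtain ⟨ω₀, hω₀, hb₀⟩ := hv
      obtain ⟨P, p1, p2, _, p4⟩ := (hEd ω₀ hω₀).2
      refine ⟨P, p1, p2, fun ω hω hb => ⟨p1, p2, fun i₁ hi₁ l hl => ?_⟩⟩
      have hbb : bb D i j r ω = bb D i j r ω₀ := hb.trans hb₀.symm
      have e1 : D.c i j ω = D.c i j ω₀ := congrArg Prod.fst hbb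
      have e2 : D.c (i - 1) (j - r) ω = D.c (i - 1) (j - r) ω₀ := congrArg Prod.snd hbb
      have e3 := Pool.P4.det_c hO hi hj.le hi₁ ω ω₀ (hEd ω hω).1 (hEd ω₀ hω₀).1 e1
      have e4 := Pool.P4.det_c hO (by omega : i - 1 ≤ M) (by omega : j - r ≤ M)
        (Nat.sub_le_sub_right hi₁ 1) ω ω₀ (hEd ω hω).1 (hEd ω₀ hω₀).1 e2
      have e5 : D.Φ i₁ j ω = D.Φ i₁ j ω₀ := by
        unfold NDat2.Φ
        rw [e3]
      have e6 : D.Φ (i₁ - 1) (j - r) ω = D.Φ (i₁ - 1) (j - r) ω₀ := by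
        unfold NDat2.Φ
        rw [e4]
      rw [e5, e6]
      exact ⟨p4 i₁ (by omega) j hj l hl, p4 (i₁ - 1) (by omega) (j - r) (by omega) l hl⟩
    · refine ⟨fun _ => 0, fun i => ?_, fun l => ?_, fun ω hω hb => absurd ⟨ω, hω, hb⟩ hv⟩
      · rw [vars_0]
        exact Finset.empty_subset _
      · rw [totalDegree_zero]
        exact Nat.zero_le _
  choose P hPt hPd hPf using hex
  exact ⟨P, hPt, hPd, fun ω hω => hPf _ ω hω rfl⟩

/-- The shifted affine frames, as functions of the context. -/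
theorem shf_aff {D : NDat2} {n K J a₀ w₀ z M i₀ i j r : ℕ} {lam gam : ℕ → ℝ} {κ C₁ : ℝ}
    {q : D.Ω → ℝ} (hO : D.Ok2 n K J a₀ w₀ z M lam gam κ C₁ q) (hii : i₀ ≤ i) (hi : i ≤ M)
    (hj : j ≤ M) {E : D.Ω → Prop} (hE : ∀ ω, E ω → 0 < q ω)
    (P P' : D.Γ × D.Γ → ℕ → PN) (hPt : ∀ v, TriN (P v)) (hPt' : ∀ v, TriN (P' v))
    (hPd : ∀ v l, (P v l).totalDegree ≤ 1) (hPd' : ∀ v l, (P' v l).totalDegree ≤ 1) :
    ∃ P'' : D.Γ × D.Γ → ℕ → PN, (∀ v, TriN (P'' v)) ∧ (∀ v l, (P'' v l).totalDegree ≤ 1) ∧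
      ∀ ω, E ω → P'' (bb D i j r ω) =
        Pool.TC37F.shf n (P (bb D i₀ j r ω)) (P' (bb D i j r ω)) :=
  shf_ex hO hii hi hj hE le_rfl P P' hPt hPt' hPd' fun _ v' l =>
    shf_deg_one (hPt' v') (hPd _) (hPd' v') l

open Classical in
/-- **The geometry at several places of a column, with affine frames.** As `geoQ`, the frames are
affine, for the places of a grid `M₁` in a larger grid `M`. -/
theorem geo_aff (n d K : ℕ) (th : ℝ) (lam gam : ℕ → ℝ) (C₁ Cs : ℝ) (hn : 1 ≤ n) (hC₁ : 1 ≤ C₁)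
    (hlam : ∀ l, 1 ≤ l → l ≤ n → lam l = 1) (hgam : ∀ l, 0 ≤ gam l) :
    ∃ (K' : ℕ) (C : ℝ), 1 ≤ C ∧
    ∀ (y r r2 r' r'' a M₁ : ℕ) (e : ℝ), 0 < e → ∃ (M : ℕ) (κ : ℝ) (z₀ : ℕ), M₁ ≤ M ∧ 0 < κ ∧
    ∀ (J a₀ w₀ z j Q : ℕ) (pl : ℕ → ℕ) (D : NDat2) (q : D.Ω → ℝ), z₀ ≤ z →
      (∀ m ≤ Q, Plc n d th gam y r r2 r' r'' a M₁ (pl m) j) → (∀ m ≤ Q, pl 0 ≤ pl m) →
      D.Ok2 n K J a₀ w₀ z M lam gam κ C₁ q → D.TmU J w₀ z κ q → D.Strt → D.Slp n J z M q →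
      D.NoSl n J w₀ z M 1 Cs κ q →
      ∃ (E : D.Ω → Prop) (P : ℕ → D.Γ × D.Γ → ℕ → PN) (V : D.Ω → ℕ → PN),
        Pb q (fun ω => ¬ E ω) ≤ e ∧ OwnFr D n K' z M₁ C E V ∧
        (∀ m ≤ Q, (∀ v, TriN (P m v)) ∧ ∀ v l, (P m v l).totalDegree ≤ 1) ∧
        (∀ m ≤ Q, ∀ ω, E ω → 0 < q ω ∧ GoodS D n K' w₀ z M₁ C ω ∧
          FrP D n K' z (pl m) j r C (P m (bb D (pl m) j r ω)) ω) ∧
        (∀ m ≤ Q, ∀ ω, E ω → ∀ l, 1 ≤ l → ∃ A : PN, A.vars ⊆ {0} ∧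
          P m (bb D (pl m) j r ω) l = P 0 (bb D (pl 0) j r ω) l + A) ∧
        ∀ m ≤ Q,
          Geo D n d K' J w₀ z (pl m) j r r2 r' r'' th gam C (exp (C * z) / 2 ^ (y * z)) q E (P m)
            ⟨Sm D n (pl 0) (pl m) j r (sl th gam n) E (P 0) V,
              Sm D n (pl 0) (pl m) j r (sl0 th gam n) E (P 0) V⟩ ∧
          Dep D n d J w₀ z M₁ (pl m) j r C q E (P m) := by
  obtain ⟨K₁, Ca, hK₁, hK₁', hCa, hev⟩ := Pool.AF37.affEv n K lam gam C₁ Cs hn hC₁ hlam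
  obtain ⟨K₂, Cb, hK₂, hCb, hshf⟩ := Pool.TC37F.frp_shf n K K₁ lam C₁ Ca hC₁ hCa hlam
  have hC0 : 0 ≤ Cb := hCa.trans hCb
  have hK2 : 1 ≤ K₂ := hK₁'.trans hK₂
  obtain ⟨Cg, hCg1, hCg, hgeo⟩ := geo_scl Pool.TC37L.lin_stmt Pool.TC.dep_stmt n d K K₂ th lam gam
    C₁ Cb hn hC₁ hC0 hlam hgam
  refine ⟨K₂, Cg, hCg1, ?_⟩
  intro y r r2 r' r'' a M₁ e he
  rcases Nat.lt_or_ge M₁ 2 with hM | hM
  · refine ⟨M₁, 1, 0, le_rfl, one_pos, ?_⟩
    intro J a₀ w₀ z j Q pl D q _ hP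
    have := plc_two hn hgam (hP 0 (Nat.zero_le _))
    omega
  obtain ⟨M, κ, z₁, hMM, hκ, hev⟩ := hev M₁ e hM he
  obtain ⟨z₂, hgeo⟩ := hgeo y r r2 r' r'' a M₁
  refine ⟨M, κ, max (max z₁ z₂) 1, hMM, hκ, ?_⟩
  intro J a₀ w₀ z j Q pl D q hz hP hpl hO' hT hS hSl hNS
  obtain ⟨E, hE, hEd⟩ := hev J a₀ w₀ z D q (by omega) hO' hT hS hSl hNS
  have hO := ok2_monoM hO' hMM
  have hi' : ∀ m ≤ Q, pl m < M₁ := fun m hm => by have := (hP m hm).i2; omega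
  have hj : j < M₁ := by have := (hP 0 (Nat.zero_le _)).j2; omega
  have h01 : 1 ≤ pl 0 := by
    have h1 := (hP 0 (Nat.zero_le _)).y1
    have h2 := (hP 0 (Nat.zero_le _)).stp.s7
    have h3 := (hP 0 (Nat.zero_le _)).a1
    omega
  have hEf : ∀ ω, E ω → 0 < q ω ∧ FraC D n 1 M₁ z Ca ω := fun ω hω =>
    ⟨(hEd ω hω).1, (hEd ω hω).2.2⟩
  have hfr : ∀ m, ∃ P : D.Γ × D.Γ → ℕ → PN, m ≤ Q → (∀ v, TriN (P v)) ∧
      (∀ v l, (P v l).totalDegree ≤ 1) ∧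
      ∀ ω, E ω → FrP D n 1 z (pl m) j r Ca (P (bb D (pl m) j r ω)) ω := by
    intro m
    by_cases hm : m ≤ Q
    · obtain ⟨P, h1⟩ := frames_aff (r := r) hO (hi' m hm) hj hEf
      exact ⟨P, fun _ => h1⟩
    · exact ⟨fun _ _ => 0, fun h => absurd h hm⟩
  choose F hF using hfr
  have hF0 := hF 0 (Nat.zero_le _)
  have hG1 : ∀ ω, E ω → 0 < q ω ∧ GoodS D n K₁ w₀ z M₁ Ca ω := fun ω hω =>
    ⟨(hEd ω hω).1, (hEd ω hω).2.1⟩
  obtain ⟨V, hV⟩ := own_ex hG1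
  have hsh : ∀ m, ∃ P : D.Γ × D.Γ → ℕ → PN, m ≤ Q → (∀ v, TriN (P v)) ∧
      (∀ v l, (P v l).totalDegree ≤ 1) ∧ ∀ ω, E ω →
        FrP D n K₂ z (pl m) j r Cb (P (bb D (pl m) j r ω)) ω ∧
        ∀ l, 1 ≤ l → ∃ A : PN, A.vars ⊆ {0} ∧
          P (bb D (pl m) j r ω) l = F 0 (bb D (pl 0) j r ω) l + A := by
    intro m
    by_cases hm : m ≤ Q
    · obtain ⟨P, p1, p2, p3⟩ := shf_aff (r := r) hO (hpl m hm) (hi' m hm).le hj.le
        (fun ω hω => (hEd ω hω).1) (F 0) (F m) hF0.1 (hF m hm).1 hF0.2.1 (hF m hm).2.1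
      refine ⟨P, fun _ => ⟨p1, p2, fun ω hω => ⟨?_, fun l hl => ?_⟩⟩⟩
      · rw [p3 ω hω]
        exact hshf D J a₀ w₀ z M₁ (pl 0) (pl m) j r gam κ q (by omega) hO h01 (hpl m hm)
          (hi' m hm).le hj.le _ _ ω (frp_up (hF0.2.2 ω hω) hK₁' le_rfl)
          (frp_up ((hF m hm).2.2 ω hω) hK₁' le_rfl)
      · rw [p3 ω hω]
        exact ⟨_, Pool.TC37F.sh1_vars ((hF m hm).1 _) l, Pool.TC37F.shf_pos n _ _ hl⟩
    · exact ⟨fun _ _ => 0, fun h => absurd h hm⟩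
  choose G hG using hsh
  -- the frames: `F 0` at the first place, the shifted ones at the others
  obtain ⟨P, hPdef⟩ : ∃ P : ℕ → D.Γ × D.Γ → ℕ → PN, P = fun m => if m = 0 then F 0 else G m :=
    ⟨_, rfl⟩
  have hP0 : P 0 = F 0 := by rw [hPdef]; exact if_pos rfl
  have hPm : ∀ m, m ≠ 0 → P m = G m := fun m hm => by rw [hPdef]; exact if_neg hm
  have hall : ∀ m ≤ Q, (∀ v, TriN (P m v)) ∧ (∀ v l, (P m v l).totalDegree ≤ 1) ∧ ∀ ω, E ω →
      FrP D n K₂ z (pl m) j r Cb (P m (bb D (pl m) j r ω)) ω ∧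
      ∀ l, 1 ≤ l → ∃ A : PN, A.vars ⊆ {0} ∧
        P m (bb D (pl m) j r ω) l = P 0 (bb D (pl 0) j r ω) l + A := by
    intro m hm
    rw [hP0]
    by_cases h0 : m = 0
    · subst h0
      rw [hP0]
      refine ⟨hF0.1, hF0.2.1, fun ω hω =>
        ⟨frp_up (hF0.2.2 ω hω) hK2 hCb, fun l _ => ⟨0, ?_, (add_zero _).symm⟩⟩⟩
      rw [vars_0]
      exact Finset.empty_subset _
    · rw [hPm m h0]
      exact hG m hm
  have hEg : ∀ m ≤ Q, ∀ ω, E ω → 0 < q ω ∧ GoodS D n K₂ w₀ z M₁ Cb ω ∧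
      FrP D n K₂ z (pl m) j r Cb (P m (bb D (pl m) j r ω)) ω := fun m hm ω hω =>
    ⟨(hEd ω hω).1, goodS_up (hG1 ω hω).2 hK₂ hCb, ((hall m hm).2.2 ω hω).1⟩
  have hV' : OwnFr D n K₂ z M₁ Cb E V := ownFr_up hV hK₂ hCb
  refine ⟨E, P, V, hE, ownFr_up hV' le_rfl hCg, fun m hm => ⟨(hall m hm).1, (hall m hm).2.1⟩,
    fun m hm ω hω => ⟨(hEg m hm ω hω).1, (hEg m hm ω hω).2.1.mono hCg,
      (hEg m hm ω hω).2.2.mono hCg⟩,
    fun m hm ω hω => ((hall m hm).2.2 ω hω).2, fun m hm => ?_⟩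
  exact hgeo J a₀ w₀ z (pl 0) (pl m) j D q κ (by omega) (hP 0 (Nat.zero_le _)) (hP m hm)
    (hpl m hm) hO (P 0) (P m) E (hall m hm).1 (fun v l => ((hall m hm).2.1 v l).trans hK2)
    (fun ω hω => (hEg 0 (Nat.zero_le _) ω hω).2.2) (hEg m hm)
    (fun ω hω l hl => by
      obtain ⟨A, hA, h1⟩ := ((hall m hm).2.2 ω hω).2 l hl
      exact fz_add hl hA h1 _) V hV'

end Pool.AF12
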