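import Pool.Agent.H12.AF.Gqa
import Pool.Agent.H48.TC.Gqs

/-!
# TC: the affine geometry, the literal of the skeleton
-/

set_option autoImplicit false

namespace Pool.AF12

/-- **(GeoQA)** -/
theorem geoQA : Pool.TC.GeoQA := by
  intro n d K th gam C₁ hn hC₁ hgam
  obtain ⟨K', C, hC, h⟩ := geo_aff n d K th (fun _ => 1) gam C₁ C₁ hn hC₁ (fun _ _ _ => rfl) hgam
  refine ⟨K', C, hC, ?_⟩
  intro y r r2 r' r'' a M₁ e he
  obtain ⟨M, κ, z₀, hM, hκ, h⟩ := h y r r2 r' r'' a M₁ e he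
  refine ⟨M, κ, z₀, hM, hκ, ?_⟩
  intro J a₀ w₀ z j Q pl D q hz hP hpl hO hT hS hSl hNS
  obtain ⟨E, P, V, h1, h2, h3, h4, h5, h6⟩ := h J a₀ w₀ z j Q pl D q hz hP hpl hO hT hS hSl hNS
  exact ⟨E, P, V, h1, h2, h4, h5, fun m hm => (h3 m hm).2, h6⟩

end Pool.AF12
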