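import Pool.Agent.H68.RM.Ent
import Pool.Agent.H46.MIC.Cpn
import Pool.Agent.H12.AF.Tdg
import Pool.Agent.H12.LSH.Rem

/-!
# Remez for closed polynomials in the time and the natural heights

`eta`: heights of the first `m` base coordinates at `(i, j)` (over any closed chart), such that they
determine the heights over the visible labels (`hV`). `cc`: a context which is a function of the line
and of the window `w`, and of the closed context `c i j` and the time. A polynomial `F (cc)` in the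
relative time and in `eta` which is small at the samples of an event has small coefficients.
-/

set_option autoImplicit false

namespace Pool.AF12

open Finset Real MvPolynomial
open Pool.Agent.H49.Ent Pool.Agent.H32.Dense Pool.STK Pool.STAT
open Pool.P4 (rt)
open Pool.P4N (sh_bd)
open Pool.BFL (Pb)
open Pool.K2S (Pe)
open Pool.TC12 (cond_sup lg_opt)

section

variable {D : NDat2} {n K J a₀ w₀ z M : ℕ} {lam gam : ℕ → ℝ} {κ C₁ : ℝ} {q : D.Ω → ℝ}

theorem lg5 (r : ℕ) : Real.log (2 * (2 * (2 : ℝ) ^ r) + 1) ≤ r * Real.log 2 + Real.log 5 := by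
  have h1 : (1 : ℝ) ≤ 2 ^ r := one_le_pow₀ (by norm_num)
  have h2 := Real.log_le_log (by positivity) (show 2 * (2 * (2 : ℝ) ^ r) + 1 ≤ 2 ^ r * 5 by linarith)
  rwa [Real.log_mul (by positivity) (by norm_num), Real.log_pow] at h2

theorem fl2 {a b : ℤ} {x : ℝ} (ha : |(a : ℝ)| ≤ x) (hb : |(b : ℝ)| ≤ x) :
    |((a - b : ℤ) : ℝ)| ≤ 2 * x := by
  push_cast
  refine (abs_sub _ _).trans ?_
  linarith

/-- The digits of the first coordinates, the number of values. -/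
theorem vd_top (hO : D.Ok2 n K J a₀ w₀ z M lam gam κ C₁ q) {i j : ℕ} (hi : i ≤ M) (hj : j ≤ M)
    {m : ℕ} (hm : m + 1 ≤ n) (r : ℕ) {p : D.Ω → ℝ} (hp : IsLaw p) (hs : ∀ ω, 0 < p ω → 0 < q ω)
    {S : Type} (W : D.Ω → S) :
    CH p (D.vd (m + 1) i j r) W ≤ m * (r * Real.log 2 + Real.log 5) := by
  have h1 := CH_le_vec hp.nonneg hp.sum_one (D.vd (m + 1) i j r) W (fun _ => 2 * 2 ^ r)
    (fun ω ω' a b _ k => by
      have hk : (k : ℕ) + 1 ≤ n := by
        have := k.2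
        omega
      exact fl2 (sh_bd (hO.pos i hi j hj ω (hs ω a) (k + 1) (by omega) hk) r)
        (sh_bd (hO.pos i hi j hj ω' (hs ω' b) (k + 1) (by omega) hk) r))
  rw [Ex_const hp.sum_one] at h1
  have h2 : ((m + 1 - 1 : ℕ) : ℝ) = m := by simp
  rw [h2] at h1
  exact h1.trans (mul_le_mul_of_nonneg_left (lg5 r) (Nat.cast_nonneg m))

/-- The digits of the first coordinates are full. -/
theorem vd_low (hO : D.Ok2 n K J a₀ w₀ z M lam gam κ C₁ q) {i j : ℕ} (hj : j ≤ M)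
    {m U : ℕ} (hm : m + 1 ≤ n) (hU : i + U ≤ M) :
    (m : ℝ) * ((U * z : ℕ) * Real.log 2) - (κ * z + n * Real.log 5) ≤
      CH q (D.vd (m + 1) i j (U * z)) (fun ω => (D.c i j ω, D.T ω)) := by
  have hq := hO.isLaw
  have hi : i ≤ M := by omega
  obtain ⟨r, hr⟩ : ∃ r, r = U * z := ⟨_, rfl⟩
  have h0 := hO.full i hi j hj U hU
  rw [← hr] at h0 ⊢
  obtain ⟨W, hW⟩ : ∃ W : D.Ω → D.Γ × ℕ, W = fun ω => (D.c i j ω, D.T ω) := ⟨_, rfl⟩
  rw [← hW] at h0 ⊢
  have h1 := CH_le_add hq.nonneg (D.vd n i j r) (D.vd (m + 1) i j r) W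
  obtain ⟨R, hR⟩ : ∃ R : D.Ω → Fin (n - 1 - m) → ℤ, R = fun ω
    (l : Fin (n - 1 - m)) =>
    ⌊(2 : ℝ) ^ (D.g i j (m + l + 1) + r) * D.sh i j ω (m + l + 1)⌋ := ⟨_, rfl⟩
  have h2 : CH q (D.vd n i j r) (fun ω => (D.vd (m + 1) i j r ω, W ω)) ≤
      CH q R (fun ω => (D.vd (m + 1) i j r ω, W ω)) := by
    refine CH_mono_left hq.nonneg ?_
    intro ω ω' _ _ e
    obtain ⟨e1, e2⟩ := Prod.ext_iff.1 e
    have e3 : D.vd (m + 1) i j r ω = D.vd (m + 1) i j r ω' := (Prod.ext_iff.1 e2).1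
    funext l
    by_cases hl : (l : ℕ) < m
    · have e4 := congrFun e3 ⟨l, by omega⟩
      exact e4
    · have hl2 := l.2
      have e4 : R ω ⟨(l : ℕ) - m, by omega⟩ = R ω' ⟨(l : ℕ) - m, by omega⟩ := by
        change (fun ω => R ω) ω _ = (fun ω => R ω) ω' _
        exact congrFun e1 _
      rw [hR] at e4
      simp only at e4
      rw [show m + ((l : ℕ) - m) + 1 = l + 1 by omega] at e4
      exact e4
  have h3 := CH_le_vec hq.nonneg hq.sum_one R (fun ω => (D.vd (m + 1) i j r ω, W ω))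
    (fun _ => 2 * 2 ^ r) (fun ω ω' a b _ k => by
      have hk := k.2
      rw [hR]
      exact fl2 (sh_bd (hO.pos i hi j hj ω a (m + k + 1) (by omega) (by omega)) r)
        (sh_bd (hO.pos i hi j hj ω' b (m + k + 1) (by omega) (by omega)) r))
  rw [Ex_const hq.sum_one] at h3
  have h4 : ((n - 1 - m : ℕ) : ℝ) * Real.log (2 * (2 * (2 : ℝ) ^ r) + 1) ≤
      ((n - 1 - m : ℕ) : ℝ) * (r * Real.log 2 + Real.log 5) :=
    mul_le_mul_of_nonneg_left (lg5 r) (Nat.cast_nonneg _)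
  have e5 : ((n - 1 - m : ℕ) : ℝ) = (n : ℝ) - 1 - m := by
    rw [Nat.cast_sub (by omega), Nat.cast_sub (by omega)]
    push_cast
    ring
  have e6 : ((n - 1 : ℕ) : ℝ) = (n : ℝ) - 1 := by
    rw [Nat.cast_sub (by omega)]
    push_cast
    ring
  rw [e5] at h4 h3
  rw [e6] at h0
  have l5 : 0 ≤ Real.log 5 := Real.log_nonneg (by norm_num)
  have e7 : (r : ℝ) = U * z := by
    rw [hr]
    push_cast
    ring
  rw [← e7] at h0
  have h6 : ((n : ℝ) - 1 - m) * Real.log 5 ≤ n * Real.log 5 :=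
    mul_le_mul_of_nonneg_right (by linarith [(Nat.cast_nonneg m : (0 : ℝ) ≤ m)]) l5
  have h7 : ((n : ℝ) - 1) * r * Real.log 2 = m * (r * Real.log 2) + (n - 1 - m) * (r * Real.log 2) := by
    ring
  have h8 : ((n : ℝ) - 1 - m) * (r * Real.log 2 + Real.log 5) =
      (n - 1 - m) * (r * Real.log 2) + (n - 1 - m) * Real.log 5 := by ring
  linarith

end

/-- The point: the relative time and the heights. -/
noncomputable def te (D : NDat2) (J w : ℕ) (eta : D.Ω → ℕ → ℝ) (ω : D.Ω) (l : ℕ) : ℝ :=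
  if l = 0 then rt D J w ω else eta ω l

/-- The substitution of the unit letters. -/
noncomputable def un (m : ℕ) (e : ℝ) (l : ℕ) : MvPolynomial (Fin (m + 1)) ℝ :=
  if h : l < m + 1 then
    if l = 0 then X ⟨l, h⟩ else C (4 * e) * (X ⟨l, h⟩ - C (1 / 2))
  else 0

theorem un_deg (m : ℕ) (e : ℝ) (l : ℕ) : (un m e l).totalDegree ≤ 1 := by
  unfold un
  split_ifs
  · exact (totalDegree_X _).le
  · refine (totalDegree_mul _ _).trans ?_
    rw [totalDegree_C, zero_add]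
    refine (totalDegree_sub _ _).trans (max_le (totalDegree_X _).le ?_)
    rw [totalDegree_C]
    exact Nat.zero_le _
  · rw [totalDegree_zero]
    exact Nat.zero_le _

theorem totalDegree_bind₁_le {σ τ : Type} (f : σ → MvPolynomial τ ℝ)
    (hf : ∀ i, (f i).totalDegree ≤ 1) (G : MvPolynomial σ ℝ) :
    (bind₁ f G).totalDegree ≤ G.totalDegree := by
  classical
  rw [← aeval_eq_bind₁, aeval_def, eval₂_eq]
  refine (totalDegree_finsetSum _ _).trans (Finset.sup_le fun s hs => ?_)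
  refine (totalDegree_mul _ _).trans ?_
  have h1 : (algebraMap ℝ (MvPolynomial τ ℝ) (coeff s G)).totalDegree = 0 := totalDegree_C _
  rw [h1, zero_add]
  refine (totalDegree_finsetProd _ _).trans ?_
  refine le_trans ?_ (le_totalDegree hs)
  rw [Finsupp.sum]
  refine Finset.sum_le_sum fun i _ => ?_
  refine (totalDegree_pow _ _).trans ?_
  calc s i * (f i).totalDegree ≤ s i * 1 := Nat.mul_le_mul_left _ (hf i)
    _ = s i := mul_one _

/-- The value in the unit letters. -/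
theorem un_eval {m : ℕ} {e : ℝ} (he : 0 < e) {F : PN} (hF : F.vars ⊆ range (m + 1)) (b : ℕ → ℝ) :
    eval (fun i : Fin (m + 1) => if (i : ℕ) = 0 then b i else b i / (4 * e) + 1 / 2)
      (bind₁ (un m e) F) = eval b F := by
  unfold eval
  rw [eval₂Hom_bind₁]
  refine eval₂Hom_congr' rfl (fun i hi _ => ?_) rfl
  change eval _ (un m e i) = b i
  have h := mem_range.1 (hF hi)
  unfold un
  rw [dif_pos h]
  by_cases h0 : i = 0
  · rw [if_pos h0, eval_X]
    simp only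
    rw [if_pos h0]
  · rw [if_neg h0, map_mul, map_sub, eval_C, eval_C, eval_X]
    simp only
    rw [if_neg h0]
    field_simp
    ring

/-- The digits: of the relative time, of the heights. -/
noncomputable def Yd (D : NDat2) (J w r m : ℕ) (x : ℝ) (eta : D.Ω → ℕ → ℝ) (ω : D.Ω) :
    Fin (m + 1) → ℕ :=
  Fin.cons (td D J w r ω)
    (fun k : Fin m => ⌊(2 : ℝ) ^ r * (eta ω (k + 1) / (4 * x) + 1 / 2)⌋₊ % 2 ^ r)

theorem Yd_lt {D : NDat2} {J w r m : ℕ} {x : ℝ} {eta : D.Ω → ℕ → ℝ} (h : w + r ≤ J) (ω : D.Ω)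
    (i : Fin (m + 1)) : Yd D J w r m x eta ω i < 2 ^ r := by
  unfold Yd
  refine Fin.cases ?_ (fun k => ?_) i
  · rw [Fin.cons_zero]
    exact td_lt h ω
  · rw [Fin.cons_succ]
    exact Nat.mod_lt _ (by positivity)

theorem unit_bd {x y : ℝ} (hx : 0 < x) (hy : |y| ≤ x) :
    0 ≤ y / (4 * x) + 1 / 2 ∧ y / (4 * x) + 1 / 2 < 1 := by
  have h : |y / (4 * x)| ≤ 1 / 4 := by
    rw [abs_div, abs_of_pos (by positivity : 0 < 4 * x), div_le_iff₀ (by positivity)]
    linarith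
  obtain ⟨h1, h2⟩ := abs_le.1 h
  constructor <;> linarith

theorem dig_bd {r : ℕ} {y : ℝ} (h0 : 0 ≤ y) (h1 : y < 1) :
    |y - ((⌊(2 : ℝ) ^ r * y⌋₊ % 2 ^ r : ℕ) : ℝ) / 2 ^ r| ≤ 1 / 2 ^ r := by
  have hp : (0 : ℝ) < 2 ^ r := by positivity
  have h2 : ⌊(2 : ℝ) ^ r * y⌋₊ < 2 ^ r := by
    rw [Nat.floor_lt (by positivity)]
    push_cast
    nlinarith
  rw [Nat.mod_eq_of_lt h2]
  have h3 := Nat.floor_le (show 0 ≤ (2 : ℝ) ^ r * y by positivity)
  have h4 := Nat.lt_floor_add_one ((2 : ℝ) ^ r * y)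
  obtain ⟨a, ha⟩ : ∃ a : ℝ, a = (⌊(2 : ℝ) ^ r * y⌋₊ : ℝ) := ⟨_, rfl⟩
  rw [← ha] at h3 h4 ⊢
  have h5 : y - a / 2 ^ r = (2 ^ r * y - a) / 2 ^ r := by field_simp
  rw [h5, abs_div, abs_of_pos hp]
  refine div_le_div_of_nonneg_right ?_ hp.le
  rw [abs_le]
  constructor <;> linarith

theorem unit_dif {r : ℕ} {x y y' : ℝ} (hx : 0 < x) (hy : |y| ≤ x) (hy' : |y'| ≤ x)
    (h : ⌊(2 : ℝ) ^ r * (y / (4 * x) + 1 / 2)⌋₊ % 2 ^ r =
      ⌊(2 : ℝ) ^ r * (y' / (4 * x) + 1 / 2)⌋₊ % 2 ^ r) : |y - y'| ≤ 8 * x / 2 ^ r := by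
  obtain ⟨a1, a2⟩ := unit_bd hx hy
  obtain ⟨b1, b2⟩ := unit_bd hx hy'
  have h1 := dig_bd (r := r) a1 a2
  have h2 := dig_bd (r := r) b1 b2
  rw [h] at h1
  have hp : (0 : ℝ) < 2 ^ r := by positivity
  have h3 : |(y / (4 * x) + 1 / 2) - (y' / (4 * x) + 1 / 2)| ≤ 2 / 2 ^ r := by
    have e : (2 : ℝ) / 2 ^ r = 1 / 2 ^ r + 1 / 2 ^ r := by ring
    rw [e]
    rw [abs_le] at h1 h2 ⊢
    constructor <;> linarith
  have h4 : y - y' = 4 * x * ((y / (4 * x) + 1 / 2) - (y' / (4 * x) + 1 / 2)) := by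
    field_simp
    ring
  rw [h4, abs_mul, abs_of_pos (by positivity : 0 < 4 * x)]
  calc 4 * x * |(y / (4 * x) + 1 / 2) - (y' / (4 * x) + 1 / 2)| ≤ 4 * x * (2 / 2 ^ r) :=
        mul_le_mul_of_nonneg_left h3 (by positivity)
    _ = 8 * x / 2 ^ r := by ring

/-- **The digits are full on an event.** -/
theorem yd_low {D : NDat2} {n m K J a₀ w₀ z M i j v U : ℕ} {lam gam : ℕ → ℝ} {κ C₁ C t : ℝ}
    {q : D.Ω → ℝ} (hC : 0 ≤ C) (ht : 0 ≤ t) (hz : 1 ≤ z) (hκ : κ ≤ 1)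
    (hO : D.Ok2 n K J a₀ w₀ z M lam gam κ C₁ q) (hT : D.TmU J w₀ z κ q) (hm : m + 1 ≤ n)
    (hU : i + U ≤ M) (hj : j ≤ M) (hv : v + U ≤ M + 1) {G : Type} {cc : D.Ω → G}
    {eta : D.Ω → ℕ → ℝ} {E : D.Ω → Prop} (c1 : Det q (D.wn J (w₀ + v * z)) cc)
    (c2 : Det q (fun ω => (D.c i j ω, D.T ω)) cc)
    (hb : ∀ ω, 0 < q ω → E ω → ∀ l, 1 ≤ l → l ≤ m → |eta ω l| ≤ exp (t * z))
    (hV : ∀ ω ω', 0 < q ω → 0 < q ω' → E ω → E ω' → D.c i j ω = D.c i j ω' → D.T ω = D.T ω' →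
      ∀ δ : ℝ, 0 ≤ δ → (∀ k, 1 ≤ k → k ≤ m → |eta ω k - eta ω' k| ≤ δ) →
      ∀ l, 1 ≤ l → l ≤ m →
      |2 ^ D.g i j l * D.sh i j ω l - 2 ^ D.g i j l * D.sh i j ω' l| ≤ exp (C * z) * δ)
    {e : ℝ} (he : 0 < e) (hE : e < Pb q E) :
    ((m + 1 : ℕ) : ℝ) * ((U * z : ℕ) * Real.log 2) -
      ((3 + (3 + 4 * (n * 2))) / e + m * (4 + (C + t))) * z ≤
      CH (cond q E True) (Yd D J (w₀ + v * z) (U * z) m (exp (t * z)) eta) cc := by
  classical
  have hq := hO.isLaw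
  obtain ⟨r, hr⟩ : ∃ r, r = U * z := ⟨_, rfl⟩
  obtain ⟨w, hw⟩ : ∃ w, w = w₀ + v * z := ⟨_, rfl⟩
  rw [← hr, ← hw]
  rw [← hw] at c1
  have hz1 : (1 : ℝ) ≤ z := by exact_mod_cast hz
  have hz0 : (0 : ℝ) ≤ z := by linarith
  have hi : i ≤ M := by omega
  have hwr : w + r ≤ J := by
    have h1 := hO.thin
    have h2 := hO.top
    have h3 : (v + U) * z ≤ (M + 1) * z := Nat.mul_le_mul_right z hv
    rw [hw, hr]
    rw [Nat.add_mul] at h3
    omega
  have hw0 : w₀ ≤ w := by rw [hw]; exact Nat.le_add_right _ _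
  have hP : Pb q E = Pe q E := Pool.TMU.law_eq_Pb q E |>.symm
  have hPe : 0 < Pe q E := by rw [← hP]; linarith
  obtain ⟨x, hx⟩ : ∃ x : ℝ, x = exp (t * z) := ⟨_, rfl⟩
  have hx1 : 1 ≤ x := hx ▸ Real.one_le_exp (by positivity)
  have hx0 : 0 < x := by linarith
  rw [← hx]
  simp only [← hx] at hb
  have l5 : 0 ≤ Real.log 5 := Real.log_nonneg (by norm_num)
  have l5' : Real.log 5 ≤ 2 := by
    have h1 : Real.log (5 ^ 2) ≤ Real.log (2 ^ 5) := Real.log_le_log (by norm_num) (by norm_num)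
    rw [Real.log_pow, Real.log_pow] at h1
    have h2 := Real.log_two_lt_d9
    push_cast at h1
    linarith
  have l2 : Real.log 2 ≤ 1 := by
    have := Real.log_two_lt_d9
    linarith
  have l20 : 0 < Real.log 2 := Real.log_pos (by norm_num)
  -- the law on the event
  obtain ⟨p, hpq⟩ : ∃ p, p = cond q E True := ⟨_, rfl⟩
  have hs : ∀ ω, 0 < p ω → 0 < q ω ∧ E ω := fun ω hω => cond_sup hq.nonneg (hpq ▸ hω)
  have hp : IsLaw p := by
    rw [hpq]
    exact Pool.MIC.isLaw_ev hq E (by linarith)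
  -- the time
  have t1 : (r : ℝ) * Real.log 2 - (2 * z + Real.log 2) / Pe q E ≤ CH p (td D J w r) (D.wn J w) := by
    rw [hpq]
    refine Pool.LF65.CH_cond_low hq hPe (td D J w r) (D.wn J w) ?_ (fun Q hQ _ => ?_) hz0
    · have h1 := td_low (r := r) hq hw0 hwr hO.ln_w hT
      have h2 : κ * z ≤ 1 * z := mul_le_mul_of_nonneg_right hκ hz0
      linarith
    · have h1 := Pool.TMU.CH_lt hQ (td D J w r) (fun ω => td_lt hwr ω) (D.wn J w)
      linarith
  have t2 : CH p (td D J w r) (D.wn J w) ≤ CH p (td D J w r) cc :=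
    CH_mono_cond hp.nonneg fun ω ω' a b h => c1 ω ω' (hs ω a).1 (hs ω' b).1 h
  -- the heights
  obtain ⟨W, hW⟩ : ∃ W : D.Ω → D.Γ × ℕ, W = fun ω => (D.c i j ω, D.T ω) := ⟨_, rfl⟩
  obtain ⟨V, hVd⟩ : ∃ V : D.Ω → Fin m → ℤ, V = D.vd (m + 1) i j r := ⟨_, rfl⟩
  have hnm : (m : ℝ) ≤ n := by
    have : m ≤ n := by omega
    exact_mod_cast this
  have hm5 : (m : ℝ) * Real.log 5 ≤ n * Real.log 5 := mul_le_mul_of_nonneg_right hnm l5
  have n5 : (n : ℝ) * Real.log 5 ≤ n * 2 := mul_le_mul_of_nonneg_left l5' (Nat.cast_nonneg n)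
  have n0 : (0 : ℝ) ≤ n := Nat.cast_nonneg n
  have t3 : (m : ℝ) * (r * Real.log 2) - (2 * (z + n * 2) + Real.log 2) / Pe q E ≤ CH p V W := by
    rw [hpq]
    refine Pool.LF65.CH_cond_low hq hPe V W ?_ (fun Q hQ hQs => ?_) (by positivity)
    · have h1 := vd_low (i := i) (j := j) (m := m) (U := U) hO hj hm hU
      rw [← hr, ← hW, ← hVd] at h1
      have h2 : κ * z ≤ 1 * z := mul_le_mul_of_nonneg_right hκ hz0
      linarith
    · have h1 := vd_top hO hi hj hm r hQ hQs W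
      rw [← hVd] at h1
      have h2 : (m : ℝ) * (r * Real.log 2 + Real.log 5) =
          m * (r * Real.log 2) + m * Real.log 5 := by ring
      linarith
  obtain ⟨Y, hY⟩ : ∃ Y : D.Ω → Fin m → ℕ,
    Y = fun ω (k : Fin m) => ⌊(2 : ℝ) ^ r * (eta ω (k + 1) / (4 * x) + 1 / 2)⌋₊ % 2 ^ r := ⟨_, rfl⟩
  have t4 := CH_le_add hp.nonneg V Y W
  have t5 : CH p V (fun ω => (Y ω, W ω)) ≤ m * (Real.log 27 + (C + t) * z) := by
    have h1 := CH_le_vec hp.nonneg hp.sum_one V (fun ω => (Y ω, W ω))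
      (fun _ => 9 * exp ((C + t) * z)) (fun ω ω' a b h k => by
        obtain ⟨e1, e2⟩ := Prod.ext_iff.1 h
        have e1' : Y ω = Y ω' := e1
        have e2' : W ω = W ω' := e2
        rw [hW] at e2'
        obtain ⟨e3, e4⟩ := Prod.ext_iff.1 e2'
        obtain ⟨q1, E1⟩ := hs ω a
        obtain ⟨q2, E2⟩ := hs ω' b
        have h2 := hV ω ω' q1 q2 E1 E2 e3 e4 (8 * x / 2 ^ r) (by positivity) (fun l l1 lm => by
          have e5 : Y ω ⟨l - 1, by omega⟩ = Y ω' ⟨l - 1, by omega⟩ := by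
            change (fun ω => Y ω) ω _ = (fun ω => Y ω) ω' _
            exact congrFun e1' _
          rw [hY] at e5
          simp only at e5
          rw [show l - 1 + 1 = l by omega] at e5
          exact unit_dif hx0 (hb ω q1 E1 l l1 lm) (hb ω' q2 E2 l l1 lm) e5) (k + 1) (by omega)
          (by have := k.2; omega)
        rw [hVd]
        change |((⌊(2 : ℝ) ^ (D.g i j (k + 1) + r) * D.sh i j ω (k + 1)⌋ -
          ⌊(2 : ℝ) ^ (D.g i j (k + 1) + r) * D.sh i j ω' (k + 1)⌋ : ℤ) : ℝ)| ≤ _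
        have e6 : (2 : ℝ) ^ (D.g i j (k + 1) + r) * D.sh i j ω (k + 1) -
            2 ^ (D.g i j (k + 1) + r) * D.sh i j ω' (k + 1) =
            2 ^ r * (2 ^ D.g i j (k + 1) * D.sh i j ω (k + 1) -
              2 ^ D.g i j (k + 1) * D.sh i j ω' (k + 1)) := by
          rw [pow_add]
          ring
        have e7 := Pool.TT5.fl_dif ((2 : ℝ) ^ (D.g i j (k + 1) + r) * D.sh i j ω (k + 1))
          (2 ^ (D.g i j (k + 1) + r) * D.sh i j ω' (k + 1))
        push_cast at e7 ⊢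
        refine e7.trans ?_
        rw [e6, abs_mul, abs_of_pos (by positivity : (0 : ℝ) < 2 ^ r)]
        have e8 : (2 : ℝ) ^ r * |2 ^ D.g i j (k + 1) * D.sh i j ω (k + 1) -
            2 ^ D.g i j (k + 1) * D.sh i j ω' (k + 1)| ≤ 8 * exp ((C + t) * z) := by
          calc (2 : ℝ) ^ r * |2 ^ D.g i j (k + 1) * D.sh i j ω (k + 1) -
                2 ^ D.g i j (k + 1) * D.sh i j ω' (k + 1)| ≤
                2 ^ r * (exp (C * z) * (8 * x / 2 ^ r)) :=
                mul_le_mul_of_nonneg_left h2 (by positivity)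
            _ = 8 * (exp (C * z) * x) := by field_simp
            _ = 8 * exp ((C + t) * z) := by
              rw [hx, ← Real.exp_add]
              congr 2
              ring
        have e9 : 1 ≤ exp ((C + t) * z) := Real.one_le_exp (by positivity)
        linarith)
    rw [Ex_const hp.sum_one] at h1
    refine h1.trans (mul_le_mul_of_nonneg_left ?_ (Nat.cast_nonneg m))
    have h2 := lg_opt (N := 9 * exp ((C + t) * z)) (A := 9) (y := (C + t) * z) (by positivity)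
      (by norm_num) (by positivity) le_rfl
    norm_num at h2 ⊢
    exact h2
  have l27 : Real.log 27 ≤ 4 := by
    have h1 : Real.log 27 ≤ Real.log (2 ^ 5) := Real.log_le_log (by norm_num) (by norm_num)
    rw [Real.log_pow] at h1
    have h2 := Real.log_two_lt_d9
    push_cast at h1
    nlinarith
  have t6 : CH p Y W ≤ CH p Y (fun ω => (td D J w r ω, cc ω)) := by
    refine CH_mono_cond hp.nonneg fun ω ω' a b h => ?_
    have h' : W ω = W ω' := h
    rw [hW] at h'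
    have e4 : D.T ω = D.T ω' := (Prod.ext_iff.1 h').2
    refine Prod.ext ?_ (c2 ω ω' (hs ω a).1 (hs ω' b).1 h')
    change td D J w r ω = td D J w r ω'
    unfold td
    rw [e4]
  have t7 := CH_chain hp.nonneg Y (td D J w r) cc
  have t8 : CH p (fun ω => (Y ω, td D J w r ω)) cc ≤ CH p (Yd D J w r m x eta) cc := by
    refine CH_mono_left hp.nonneg fun ω ω' _ _ h => ?_
    have e1 : Yd D J w r m x eta ω = Yd D J w r m x eta ω' := (Prod.ext_iff.1 h).1
    refine Prod.ext ?_ ?_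
    · funext k
      have e2 := congrFun e1 k.succ
      unfold Yd at e2
      rw [Fin.cons_succ, Fin.cons_succ] at e2
      rw [hY]
      exact e2
    · have e2 := congrFun e1 0
      unfold Yd at e2
      rw [Fin.cons_zero, Fin.cons_zero] at e2
      exact e2
  rw [← hpq]
  -- numbers
  have u1 : (2 * z + Real.log 2) / Pe q E ≤ 3 * z / e := by
    rw [← hP]
    refine div_le_div₀ (by positivity) (by linarith) he hE.le
  have u2 : (2 * (z + n * 2) + Real.log 2) / Pe q E ≤ (3 + 4 * (n * 2)) * z / e := by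
    rw [← hP]
    refine div_le_div₀ (by positivity) ?_ he hE.le
    have : (n : ℝ) * 2 * 1 ≤ n * 2 * z := mul_le_mul_of_nonneg_left hz1 (by positivity)
    nlinarith
  have u3 : (m : ℝ) * (Real.log 27 + (C + t) * z) ≤ m * (4 + (C + t)) * z := by
    rw [mul_assoc]
    refine mul_le_mul_of_nonneg_left ?_ (Nat.cast_nonneg m)
    nlinarith
  have u4 : ((m + 1 : ℕ) : ℝ) * (r * Real.log 2) = m * (r * Real.log 2) + r * Real.log 2 := by
    push_cast
    ring
  have u5 : ((3 + (3 + 4 * (n * 2))) / e + m * (4 + (C + t))) * (z : ℝ) =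
      3 * z / e + (3 + 4 * (n * 2)) * z / e + m * (4 + (C + t)) * z := by
    ring
  rw [u4]
  linarith

end Pool.AF12
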