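import Pool.Agent.H25.MIC.SsFew
import Pool.Agent.H12.AF.Rmz

/-!
# Remez for closed polynomials in the time and the natural heights: the theorem
-/

set_option autoImplicit false

namespace Pool.AF12

open Finset Real MvPolynomial
open Pool.Agent.H49.Ent Pool.Agent.H32.Dense Pool.STK Pool.STAT
open Pool.P4 (rt)
open Pool.BFL (Pb)

/-- `m` coordinates. -/
theorem rmz_m (n m K' : ℕ) (C t e : ℝ) (hC : 0 ≤ C) (ht : 0 ≤ t) (he : 0 < e) :
    ∃ (U₀ z₀ : ℕ), ∀ (D : NDat2) (K J a₀ w₀ z M i j v U : ℕ) (lam gam : ℕ → ℝ) (κ C₁ : ℝ)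
      (q : D.Ω → ℝ), z₀ ≤ z → κ ≤ 1 → D.Ok2 n K J a₀ w₀ z M lam gam κ C₁ q →
      D.TmU J w₀ z κ q → m + 1 ≤ n → U₀ ≤ U → i + U ≤ M → j ≤ M → v + U ≤ M + 1 →
      ∀ (G : Type) (cc : D.Ω → G) (eta : D.Ω → ℕ → ℝ) (E : D.Ω → Prop) (F : G → PN) (S : G → ℝ),
      Det q (D.wn J (w₀ + v * z)) cc → Det q (fun ω => (D.c i j ω, D.T ω)) cc →
      (∀ x, 0 ≤ S x) → (∀ x, (F x).vars ⊆ range (m + 1)) → (∀ x, (F x).totalDegree ≤ K') →
      (∀ ω, 0 < q ω → E ω → ∀ l, 1 ≤ l → l ≤ m → |eta ω l| ≤ exp (t * z)) →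
      (∀ ω ω', 0 < q ω → 0 < q ω' → E ω → E ω' → D.c i j ω = D.c i j ω' → D.T ω = D.T ω' →
        ∀ δ : ℝ, 0 ≤ δ → (∀ k, 1 ≤ k → k ≤ m → |eta ω k - eta ω' k| ≤ δ) →
        ∀ l, 1 ≤ l → l ≤ m →
        |2 ^ D.g i j l * D.sh i j ω l - 2 ^ D.g i j l * D.sh i j ω' l| ≤ exp (C * z) * δ) →
      (∀ ω, 0 < q ω → E ω → |eval (te D J (w₀ + v * z) eta ω) (F (cc ω))| ≤ S (cc ω)) →
      Pb q (fun ω => E ω ∧ ¬ ∀ α, |coeff α (F (cc ω))| ≤
        2 ^ ((n * K' * U + 1) * z) * S (cc ω)) ≤ e := by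
  classical
  obtain ⟨C₂, hC₂, hrm⟩ := Pool.RM.rm2 (m + 1) K' 1 le_rfl
  obtain ⟨C₃, hC₃, hsup⟩ := Pool.SYS35.nrm_of_sup (m + 1) K'
  obtain ⟨L, hL⟩ : ∃ L : ℝ, L = (3 + (3 + 4 * ((n : ℝ) * 2))) / e + m * (4 + (C + t)) := ⟨_, rfl⟩
  have hL0 : 0 ≤ L := by
    rw [hL]
    positivity
  have l20 : 0 < Real.log 2 := Real.log_pos (by norm_num)
  obtain ⟨N, hN⟩ := pow_unbounded_of_one_lt (C₂ * C₃) (show (1 : ℝ) < 2 by norm_num)
  refine ⟨⌈2 * L / (e * Real.log 2)⌉₊ + ⌈2 * C₂ / e⌉₊ + 1, N + 1, ?_⟩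
  intro D K J a₀ w₀ z M i j v U lam gam κ C₁ q hz hκ hO hT hm hU₀ hU hj hv G cc eta E F S c1 c2
    hS hFv hFd hb hV hval
  have hq := hO.isLaw
  by_cases hE : Pb q E ≤ e
  · refine le_trans (Pool.MIC.Pb_mono_ae hq.nonneg fun ω _ h => h.1) hE
  rw [not_le] at hE
  have hz1 : 1 ≤ z := by omega
  have hz1r : (1 : ℝ) ≤ z := by exact_mod_cast hz1
  have hU1 : 1 ≤ U := by omega
  have hU1r : (1 : ℝ) ≤ U := by exact_mod_cast hU1
  have hlow := yd_low hC ht hz1 hκ hO hT hm hU hj hv c1 c2 hb hV he hE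
  obtain ⟨r, hr⟩ : ∃ r, r = U * z := ⟨_, rfl⟩
  obtain ⟨w, hw⟩ : ∃ w, w = w₀ + v * z := ⟨_, rfl⟩
  obtain ⟨x, hx⟩ : ∃ x : ℝ, x = exp (t * z) := ⟨_, rfl⟩
  have hx1 : 1 ≤ x := hx ▸ Real.one_le_exp (by positivity)
  have hx0 : 0 < x := by linarith
  obtain ⟨p, hpq⟩ : ∃ p, p = cond q E True := ⟨_, rfl⟩
  rw [← hr, ← hw, ← hx, ← hL, ← hpq] at hlow
  rw [← hw] at hval
  rw [← hx] at hb
  have hs : ∀ ω, 0 < p ω → 0 < q ω ∧ E ω := fun ω hω =>
    Pool.TC12.cond_sup hq.nonneg (hpq ▸ hω)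
  have hp : IsLaw p := by
    rw [hpq]
    exact Pool.MIC.isLaw_ev hq E (by linarith)
  have hwr : w + r ≤ J := by
    have h1 := hO.thin
    have h2 := hO.top
    have h3 : (v + U) * z ≤ (M + 1) * z := Nat.mul_le_mul_right z hv
    rw [hw, hr]
    rw [Nat.add_mul] at h3
    omega
  have hr1 : 1 ≤ r := by
    rw [hr]
    exact Nat.mul_pos hU1 hz1
  have hrr : (r : ℝ) = U * z := by
    rw [hr]
    push_cast
    ring
  have hr0 : (0 : ℝ) < r * Real.log 2 := by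
    have : (1 : ℝ) ≤ r := by exact_mod_cast hr1
    positivity
  have hent : (((m + 1 : ℕ) : ℝ) - L * z / (r * Real.log 2)) * (r * Real.log 2) ≤
      CH p (Yd D J w r m x eta) cc := by
    rw [sub_mul, div_mul_cancel₀ _ hr0.ne']
    exact hlow
  have hmain := hrm D.Ω G p r (Yd D J w r m x eta) cc (fun g => bind₁ (un m x) (F g))
    (fun _ => True) S (L * z / (r * Real.log 2)) hp (fun ω i => Yd_lt hwr ω i)
    (fun g i => (degreeOf_le_totalDegree _ _).trans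
      ((totalDegree_bind₁_le _ (un_deg m x) _).trans (hFd g))) hr1 hS hent
    (fun ω hω _ => by
      obtain ⟨q1, E1⟩ := hs ω hω
      refine ⟨fun i : Fin (m + 1) => if (i : ℕ) = 0 then te D J w eta ω i else
        te D J w eta ω i / (4 * x) + 1 / 2, ?_, ?_⟩
      · intro i
        refine Fin.cases ?_ (fun k => ?_) i
        · beta_reduce
          rw [if_pos (by simp)]
          unfold Yd te
          rw [Fin.cons_zero, if_pos (by simp)]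
          exact rt_td (hO.X_zero ω) hwr
        · beta_reduce
          rw [if_neg (by simp)]
          unfold Yd te
          rw [Fin.cons_succ, if_neg (by simp)]
          have e1 := hb ω q1 E1 ((k : ℕ) + 1) (by omega) (by have := k.2; omega)
          obtain ⟨a1, a2⟩ := unit_bd hx0 e1
          exact dig_bd a1 a2
      · rw [un_eval hx0 (hFv _)]
        exact hval ω q1 E1)
  -- the probability
  have hUL : L * z / (r * Real.log 2) + C₂ / r ≤ e := by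
    have h1 : L * z / (r * Real.log 2) ≤ e / 2 := by
      rw [div_le_iff₀ hr0, hrr]
      have h2 : 2 * L / (e * Real.log 2) ≤ U := by
        have h3 := Nat.le_ceil (2 * L / (e * Real.log 2))
        have h4 : ((⌈2 * L / (e * Real.log 2)⌉₊ : ℕ) : ℝ) ≤ U := by exact_mod_cast (by omega)
        linarith
      rw [div_le_iff₀ (by positivity)] at h2
      nlinarith
    have h2 : C₂ / r ≤ e / 2 := by
      rw [div_le_iff₀ (by positivity), hrr]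
      have h3 : 2 * C₂ / e ≤ U := by
        have h3 := Nat.le_ceil (2 * C₂ / e)
        have h4 : ((⌈2 * C₂ / e⌉₊ : ℕ) : ℝ) ≤ U := by exact_mod_cast (by omega)
        linarith
      rw [div_le_iff₀ he] at h3
      have h4 : (U : ℝ) * e * 1 ≤ U * e * z := mul_le_mul_of_nonneg_left hz1r (by positivity)
      nlinarith
    linarith
  refine le_trans ?_ (hmain.trans hUL)
  -- the coefficients
  obtain ⟨B, hB⟩ : ∃ B : D.Ω → Prop, B = fun ω => True ∧ ¬ ∀ y : Fin (m + 1) → ℝ,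
      (∀ i, |y i| ≤ 1) → |eval y (bind₁ (un m x) (F (cc ω)))| ≤
        C₂ * 2 ^ ((m + 1) * K' * r) * S (cc ω) := ⟨_, rfl⟩
  rw [← hB]
  have h1 : Pb q (fun ω => E ω ∧ B ω) = Pb p B * Pb q E := by
    rw [hpq]
    exact (Pool.MIC.Pb_cond_ge E B (by linarith)).symm
  have h2 : Pb p B * Pb q E ≤ Pb p B := by
    have h3 := Pool.RM.Pb_le_one hq E
    have h4 := Pool.MIC.Pb_nonneg hp.nonneg B
    nlinarith
  refine le_trans ?_ (h1.le.trans h2)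
  refine Pool.MIC.Pb_mono_ae hq.nonneg fun ω hω h => ⟨h.1, ?_⟩
  rw [hB]
  refine ⟨trivial, fun hcon => h.2 fun α => ?_⟩
  have h5 : ∀ b : ℕ → ℝ, (∀ i < m + 1, |b i| ≤ (1 : ℝ) ^ ((fun _ => 1 : ℕ → ℕ) i)) →
      |eval b (F (cc ω))| ≤ C₂ * 2 ^ ((m + 1) * K' * r) * S (cc ω) := by
    intro b hb'
    rw [← un_eval hx0 (hFv (cc ω)) b]
    refine hcon _ fun i => ?_
    have h6 := hb' i i.2
    rw [one_pow] at h6
    split_ifs with h0
    · exact h6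
    · have h7 : |b i / (4 * x)| ≤ 1 / 4 := by
        rw [abs_div, abs_of_pos (by positivity : 0 < 4 * x), div_le_iff₀ (by positivity)]
        nlinarith
      rw [abs_le] at h7 ⊢
      constructor <;> linarith [h7.1, h7.2]
  have h6 := hsup (fun _ => 1) 1 (F (cc ω)) _ one_pos (hFv _) (hFd _) h5
  have h7 := Pool.STAT.SsF.coeff_le_nrm (F (cc ω)) α
  refine h7.trans (h6.trans ?_)
  rw [← mul_assoc, ← mul_assoc]
  refine mul_le_mul_of_nonneg_right ?_ (hS _)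
  have h8 : C₃ * C₂ ≤ 2 ^ z := by
    have h9 : (2 : ℝ) ^ N ≤ 2 ^ z := pow_le_pow_right₀ (by norm_num) (by omega)
    linarith [mul_comm C₂ C₃]
  have h9 : (2 : ℝ) ^ ((m + 1) * K' * r) ≤ 2 ^ (n * K' * U * z) := by
    refine pow_le_pow_right₀ (by norm_num) ?_
    rw [hr, ← mul_assoc]
    exact Nat.mul_le_mul_right _ (Nat.mul_le_mul_right _ (Nat.mul_le_mul_right _ hm))
  calc C₃ * C₂ * 2 ^ ((m + 1) * K' * r) ≤ 2 ^ z * 2 ^ (n * K' * U * z) :=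
        mul_le_mul h8 h9 (by positivity) (by positivity)
    _ = 2 ^ ((n * K' * U + 1) * z) := by
      rw [← pow_add]
      congr 1
      ring

/-- **Remez for closed polynomials in the relative time and the heights of the first `m`
coordinates.** -/
theorem rmz_clo (n K' : ℕ) (C t e : ℝ) (hC : 0 ≤ C) (ht : 0 ≤ t) (he : 0 < e) :
    ∃ (U₀ z₀ : ℕ), ∀ (D : NDat2) (m K J a₀ w₀ z M i j v U : ℕ) (lam gam : ℕ → ℝ) (κ C₁ : ℝ)
      (q : D.Ω → ℝ), z₀ ≤ z → κ ≤ 1 → D.Ok2 n K J a₀ w₀ z M lam gam κ C₁ q →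
      D.TmU J w₀ z κ q → m + 1 ≤ n → U₀ ≤ U → i + U ≤ M → j ≤ M → v + U ≤ M + 1 →
      ∀ (G : Type) (cc : D.Ω → G) (eta : D.Ω → ℕ → ℝ) (E : D.Ω → Prop) (F : G → PN) (S : G → ℝ),
      Det q (D.wn J (w₀ + v * z)) cc → Det q (fun ω => (D.c i j ω, D.T ω)) cc →
      (∀ x, 0 ≤ S x) → (∀ x, (F x).vars ⊆ range (m + 1)) → (∀ x, (F x).totalDegree ≤ K') →
      (∀ ω, 0 < q ω → E ω → ∀ l, 1 ≤ l → l ≤ m → |eta ω l| ≤ exp (t * z)) →
      (∀ ω ω', 0 < q ω → 0 < q ω' → E ω → E ω' → D.c i j ω = D.c i j ω' → D.T ω = D.T ω' →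
        ∀ δ : ℝ, 0 ≤ δ → (∀ k, 1 ≤ k → k ≤ m → |eta ω k - eta ω' k| ≤ δ) →
        ∀ l, 1 ≤ l → l ≤ m →
        |2 ^ D.g i j l * D.sh i j ω l - 2 ^ D.g i j l * D.sh i j ω' l| ≤ exp (C * z) * δ) →
      (∀ ω, 0 < q ω → E ω → |eval (te D J (w₀ + v * z) eta ω) (F (cc ω))| ≤ S (cc ω)) →
      Pb q (fun ω => E ω ∧ ¬ ∀ α, |coeff α (F (cc ω))| ≤
        2 ^ ((n * K' * U + 1) * z) * S (cc ω)) ≤ e := by
  choose u s h using fun m => rmz_m n m K' C t e hC ht he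
  refine ⟨∑ m ∈ range n, u m, ∑ m ∈ range n, s m, ?_⟩
  intro D m K J a₀ w₀ z M i j v U lam gam κ C₁ q hz hκ hO hT hm hU
  have h1 : u m ≤ ∑ m ∈ range n, u m :=
    Finset.single_le_sum (fun _ _ => Nat.zero_le _) (mem_range.2 (by omega))
  have h2 : s m ≤ ∑ m ∈ range n, s m :=
    Finset.single_le_sum (fun _ _ => Nat.zero_le _) (mem_range.2 (by omega))
  exact h m D K J a₀ w₀ z M i j v U lam gam κ C₁ q (h2.trans hz) hκ hO hT hm (h1.trans hU)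

end Pool.AF12
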